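import Mathlib

/-!
# Path-free subgraphs supported on a vertex set: superadditivity, tiles and stars
-/

namespace Pool.Agent.H.MP_69c6fe_co

open Finset SimpleGraph

variable {V : Type*} [Fintype V] [DecidableEq V]

/-- `P_ℓ`: the path with `ℓ` edges -/
abbrev PP (l : ℕ) : SimpleGraph (Fin (l + 1)) := pathGraph (l + 1)

/-- inside `S` the graph `G` has a subgraph without `P_{2t}` with at least `k` edges -/
def Ach (G : SimpleGraph V) (t : ℕ) (S : Finset V) (k : ℝ) : Prop :=
  ∃ H : SimpleGraph V, H ≤ G ∧ (∀ x y, H.Adj x y → x ∈ S ∧ y ∈ S) ∧ (PP (2 * t)).Free H ∧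
    k ≤ (H.edgeSet.ncard : ℝ)

theorem free_of_no_map {t : ℕ} {H : SimpleGraph V}
    (h : ∀ f : ℕ → V, (∀ i j, i ≤ 2 * t → j ≤ 2 * t → f i = f j → i = j) →
      ¬ (∀ i < 2 * t, H.Adj (f i) (f (i + 1)))) : (PP (2 * t)).Free H := by
  rintro ⟨φ⟩
  refine h (fun i => if hi : i < 2 * t + 1 then φ ⟨i, hi⟩ else φ 0) ?_ ?_
  · intro i j hi hj hij
    simp only [dif_pos (show i < 2 * t + 1 by omega), dif_pos (show j < 2 * t + 1 by omega)] at hij
    have := φ.injective hij
    exact Fin.mk.inj_iff.mp this
  · intro i hi
    simp only [dif_pos (show i < 2 * t + 1 by omega), dif_pos (show i + 1 < 2 * t + 1 by omega)]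
    apply φ.toHom.map_rel
    rw [pathGraph_adj]
    left
    rfl

theorem exists_map_of_not_free {t : ℕ} {H : SimpleGraph V} (h : ¬ (PP (2 * t)).Free H) :
    ∃ f : ℕ → V, (∀ i j, i ≤ 2 * t → j ≤ 2 * t → f i = f j → i = j) ∧
      (∀ i < 2 * t, H.Adj (f i) (f (i + 1))) := by
  by_contra hcon
  push Not at hcon
  exact h (free_of_no_map fun f hf => by
    obtain ⟨i, hi, hi2⟩ := hcon f hf
    intro hall
    exact hi2 (hall i hi))

theorem free_of_map {t : ℕ} {H : SimpleGraph V} (h : (PP (2 * t)).Free H) (f : ℕ → V)
    (hf : ∀ i j, i ≤ 2 * t → j ≤ 2 * t → f i = f j → i = j) :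
    ¬ (∀ i < 2 * t, H.Adj (f i) (f (i + 1))) := by
  intro hall
  apply h
  refine ⟨⟨⟨fun i => f i, ?_⟩, ?_⟩⟩
  · intro a b hab
    rw [pathGraph_adj] at hab
    rcases hab with hab | hab
    · have := hall a (by omega)
      rw [hab] at this
      exact this
    · have := hall b (by omega)
      rw [hab] at this
      exact this.symm
  · intro a b hab
    exact Fin.ext (hf a b (by omega) (by omega) hab)

theorem Ach.mono {G : SimpleGraph V} {t : ℕ} {S S' : Finset V} {k k' : ℝ} (h : Ach G t S k)
    (hS : S ⊆ S') (hk : k' ≤ k) : Ach G t S' k' := by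
  obtain ⟨H, h1, h2, h3, h4⟩ := h
  exact ⟨H, h1, fun x y hxy => ⟨hS (h2 x y hxy).1, hS (h2 x y hxy).2⟩, h3, hk.trans h4⟩

theorem Ach.zero (G : SimpleGraph V) {t : ℕ} (ht : 1 ≤ t) (S : Finset V) : Ach G t S 0 := by
  refine ⟨⊥, bot_le, fun x y hxy => absurd hxy (by simp), ?_, by positivity⟩
  apply free_of_no_map
  intro f _ hall
  exact absurd (hall 0 (by omega)) (by simp)

/-- Superadditivity over disjoint vertex sets. -/
theorem Ach.union {G : SimpleGraph V} {t : ℕ} {S S' : Finset V} {k k' : ℝ}
    (h : Ach G t S k) (h' : Ach G t S' k') (hd : Disjoint S S') :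
    Ach G t (S ∪ S') (k + k') := by
  classical
  obtain ⟨H, h1, h2, h3, h4⟩ := h
  obtain ⟨H', h1', h2', h3', h4'⟩ := h'
  rw [Finset.disjoint_left] at hd
  refine ⟨H ⊔ H', sup_le h1 h1', ?_, ?_, ?_⟩
  · intro x y hxy
    rcases hxy with hxy | hxy
    · exact ⟨Finset.mem_union_left _ (h2 x y hxy).1, Finset.mem_union_left _ (h2 x y hxy).2⟩
    · exact ⟨Finset.mem_union_right _ (h2' x y hxy).1, Finset.mem_union_right _ (h2' x y hxy).2⟩
  · apply free_of_no_map
    intro f hf hall
    rcases Nat.eq_zero_or_pos t with ht | ht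
    · subst ht
      exact free_of_map h3 f hf (by intro i hi; omega)
    have h0 := hall 0 (by omega)
    rcases h0 with h0 | h0
    · have key : ∀ i, i < 2 * t → H.Adj (f i) (f (i + 1)) := by
        intro i
        induction i with
        | zero => intro _; exact h0
        | succ i ih =>
          intro hi
          rcases hall (i + 1) hi with h5 | h5
          · exact h5
          · exact absurd (h2' _ _ h5).1 (hd (h2 _ _ (ih (by omega))).2)
      exact free_of_map h3 f hf key
    · have key : ∀ i, i < 2 * t → H'.Adj (f i) (f (i + 1)) := by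
        intro i
        induction i with
        | zero => intro _; exact h0
        | succ i ih =>
          intro hi
          rcases hall (i + 1) hi with h5 | h5
          · exact absurd (h2' _ _ (ih (by omega))).2 (hd (h2 _ _ h5).1)
          · exact h5
      exact free_of_map h3' f hf key
  · have hdis : Disjoint H.edgeSet H'.edgeSet := by
      rw [Set.disjoint_left]
      intro e
      induction e using Sym2.ind with
      | _ x y =>
        intro he he'
        rw [mem_edgeSet] at he he'
        exact hd (h2 _ _ he).1 (h2' _ _ he').1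
    have : (H ⊔ H').edgeSet.ncard = H.edgeSet.ncard + H'.edgeSet.ncard := by
      rw [edgeSet_sup, Set.ncard_union_eq hdis (Set.toFinite _) (Set.toFinite _)]
    rw [this]
    push_cast
    linarith

/-- A set of at most `2t` vertices is free of `P_{2t}`. -/
theorem Ach.tile (G : SimpleGraph V) {t : ℕ} (ht : 1 ≤ t) (S : Finset V) (hS : #S ≤ 2 * t)
    (H : SimpleGraph V) (hH : H ≤ G) (hHS : ∀ x y, H.Adj x y → x ∈ S ∧ y ∈ S) :
    Ach G t S (H.edgeSet.ncard : ℝ) := by
  refine ⟨H, hH, hHS, ?_, le_rfl⟩
  apply free_of_no_map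
  intro f hf hall
  have h1 : ∀ i ≤ 2 * t, f i ∈ S := by
    intro i hi
    rcases Nat.lt_or_ge i (2 * t) with h | h
    · exact (hHS _ _ (hall i h)).1
    · have : i = (2 * t - 1) + 1 := by omega
      rw [this]
      exact (hHS _ _ (hall (2 * t - 1) (by omega))).2
  have h2 : #(Finset.range (2 * t + 1)) ≤ #S := by
    apply Finset.card_le_card_of_injOn f
    · intro i hi
      have := Finset.mem_range.mp (Finset.mem_coe.mp hi)
      exact h1 i (by omega)
    · intro i hi j hj hij
      have hi := Finset.mem_range.mp (Finset.mem_coe.mp hi)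
      have hj := Finset.mem_range.mp (Finset.mem_coe.mp hj)
      exact hf i j (by omega) (by omega) hij
  rw [Finset.card_range] at h2
  omega

/-- A complete bipartite graph with a side of size `t - 1` is free of `P_{2t}`. -/
theorem Ach.star (G : SimpleGraph V) {t : ℕ} (T C : Finset V) (hT : #T < t) (hd : Disjoint T C)
    (hG : ∀ x ∈ T, ∀ y ∈ C, G.Adj x y) : Ach G t (T ∪ C) ((#T : ℝ) * #C) := by
  classical
  rw [Finset.disjoint_left] at hd
  set H : SimpleGraph V :=
    { Adj := fun x y => (x ∈ T ∧ y ∈ C) ∨ (y ∈ T ∧ x ∈ C)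
      symm := ⟨fun x y h => by tauto⟩
      loopless := ⟨fun x h => by
        rcases h with h | h
        · exact hd h.1 h.2
        · exact hd h.1 h.2⟩ } with hH
  refine ⟨H, ?_, ?_, ?_, ?_⟩
  · intro x y h
    rcases h with h | h
    · exact hG x h.1 y h.2
    · exact (hG y h.1 x h.2).symm
  · intro x y h
    rcases h with h | h
    · exact ⟨Finset.mem_union_left _ h.1, Finset.mem_union_right _ h.2⟩
    · exact ⟨Finset.mem_union_right _ h.2, Finset.mem_union_left _ h.1⟩
  · apply free_of_no_map
    intro f hf hall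
    set g : ℕ → V := fun i => if f (2 * i) ∈ T then f (2 * i) else f (2 * i + 1) with hg
    have h1 : #(Finset.range t) ≤ #T := by
      apply Finset.card_le_card_of_injOn g
      · intro i hi
        have hi := Finset.mem_range.mp (Finset.mem_coe.mp hi)
        have h2 := hall (2 * i) (by omega)
        simp only [hg]
        split_ifs with h3
        · exact h3
        · rcases h2 with h2 | h2
          · exact absurd h2.1 h3
          · exact h2.1
      · intro i hi j hj hij
        have hi := Finset.mem_range.mp (Finset.mem_coe.mp hi)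
        have hj := Finset.mem_range.mp (Finset.mem_coe.mp hj)
        simp only [hg] at hij
        split_ifs at hij
        · have := hf _ _ (by omega) (by omega) hij
          omega
        · have := hf _ _ (by omega) (by omega) hij
          omega
        · have := hf _ _ (by omega) (by omega) hij
          omega
        · have := hf _ _ (by omega) (by omega) hij
          omega
    rw [Finset.card_range] at h1
    omega
  · have h1 : (T ×ˢ C).card ≤ H.edgeSet.ncard := by
      have h2 : Set.InjOn (fun p : V × V => s(p.1, p.2)) (↑(T ×ˢ C) : Set (V × V)) := by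
        intro p hp q hq hpq
        have hp := Finset.mem_product.mp (Finset.mem_coe.mp hp)
        have hq := Finset.mem_product.mp (Finset.mem_coe.mp hq)
        simp only [Sym2.eq_iff] at hpq
        rcases hpq with hpq | hpq
        · exact Prod.ext hpq.1 hpq.2
        · exfalso
          rw [hpq.1] at hp
          exact hd hp.1 hq.2
      rw [← Set.ncard_coe_finset (T ×ˢ C), ← h2.ncard_image]
      apply Set.ncard_le_ncard _ (Set.toFinite _)
      rintro e ⟨p, hp, rfl⟩
      have hp := Finset.mem_product.mp (Finset.mem_coe.mp hp)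
      show s(p.1, p.2) ∈ H.edgeSet
      rw [mem_edgeSet]
      exact Or.inl hp
    rw [Finset.card_product] at h1
    exact_mod_cast h1

end Pool.Agent.H.MP_69c6fe_co
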