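import Mathlib

/-!
Finite inequalities behind the inverse Turán problem for even paths.
-/

namespace Pool.Agent.H.MP_69c6fe_co

open Finset

variable {ι : Type*} [Fintype ι] [DecidableEq ι]

/-- ordered edge sum of the blow-up with part sizes `s` (twice the number of edges) -/
noncomputable def DD (R : SimpleGraph ι) [DecidableRel R.Adj] (s : ι → ℝ) : ℝ :=
  ∑ u, ∑ v, if R.Adj u v then s u * s v else 0

/-- dual feasible prices -/
structure Feas (R : SimpleGraph ι) [DecidableRel R.Adj] (t : ℕ) (y : ι → ℝ) : Prop where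
  low : ∀ v, (t : ℝ) - 1 ≤ y v
  tile : ∀ m : ι → ℕ, ∑ v, m v = 2 * t →
    DD R (fun v => (m v : ℝ)) / 2 ≤ ∑ v, (m v : ℝ) * y v

namespace Aux

/-- cheapest `K` elements -/
theorem knap {E : Type*} [DecidableEq E] (F : Finset E) (c x : E → ℝ) (K : ℕ) (hK : 0 < K)
    (hx0 : ∀ e ∈ F, 0 ≤ x e) (hx1 : ∀ e ∈ F, x e ≤ 1) (hsum : ∑ e ∈ F, x e = K) :
    ∃ T ⊆ F, T.card = K ∧ ∑ e ∈ T, c e ≤ ∑ e ∈ F, c e * x e := by
  have hcard : K ≤ F.card := by
    have h1 : (K : ℝ) ≤ F.card := by
      rw [← hsum]
      calc ∑ e ∈ F, x e ≤ ∑ _e ∈ F, (1 : ℝ) := Finset.sum_le_sum hx1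
        _ = F.card := by simp
    exact_mod_cast h1
  obtain ⟨T, hT, hmin⟩ := Finset.exists_min_image (powersetCard K F) (fun T => ∑ e ∈ T, c e)
    (powersetCard_nonempty.2 hcard)
  rw [mem_powersetCard] at hT
  obtain ⟨hTF, hTK⟩ := hT
  refine ⟨T, hTF, hTK, ?_⟩
  have hTne : T.Nonempty := by
    rw [← card_pos, hTK]; exact hK
  obtain ⟨a, haT, ha⟩ := Finset.exists_max_image T c hTne
  have hout : ∀ f ∈ F, f ∉ T → c a ≤ c f := by
    intro f hf hfT
    have hmem : insert f (T.erase a) ∈ powersetCard K F := by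
      rw [mem_powersetCard]
      refine ⟨?_, ?_⟩
      · intro e he
        rw [mem_insert] at he
        rcases he with rfl | he
        · exact hf
        · exact hTF (mem_of_mem_erase he)
      · rw [card_insert_of_notMem (fun h => hfT (mem_of_mem_erase h)), card_erase_of_mem haT, hTK]
        omega
    have h1 := hmin _ hmem
    rw [sum_insert (fun h => hfT (mem_of_mem_erase h))] at h1
    have h2 := Finset.add_sum_erase T c haT
    linarith
  have h1 : ∑ e ∈ T, c e = ∑ e ∈ F, c e * (if e ∈ T then 1 else 0) := by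
    simp_rw [mul_ite, mul_one, mul_zero]
    rw [← Finset.sum_filter, Finset.filter_mem_eq_inter, inter_eq_right.2 hTF]
  have h2 : ∑ e ∈ F, (if e ∈ T then (1 : ℝ) else 0) = K := by
    rw [← Finset.sum_filter, Finset.filter_mem_eq_inter, inter_eq_right.2 hTF]
    simp [hTK]
  rw [h1]
  have h3 : 0 ≤ ∑ e ∈ F, (c e - c a) * (x e - (if e ∈ T then 1 else 0)) := by
    refine Finset.sum_nonneg fun e he => ?_
    by_cases h : e ∈ T
    · rw [if_pos h]
      exact mul_nonneg_of_nonpos_of_nonpos (by linarith [ha e h]) (by linarith [hx1 e he])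
    · rw [if_neg h]
      exact mul_nonneg (by linarith [hout e he h]) (by linarith [hx0 e he])
  have h4 : ∑ e ∈ F, (c e - c a) * (x e - (if e ∈ T then 1 else 0)) =
      ∑ e ∈ F, c e * x e - ∑ e ∈ F, c e * (if e ∈ T then 1 else 0) -
        c a * (∑ e ∈ F, x e - ∑ e ∈ F, (if e ∈ T then (1:ℝ) else 0)) := by
    rw [← Finset.sum_sub_distrib, ← Finset.sum_sub_distrib, Finset.mul_sum,
      ← Finset.sum_sub_distrib]
    exact Finset.sum_congr rfl fun e _ => by ring
  rw [h4, hsum, h2] at h3
  linarith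

theorem DD_clique (R : SimpleGraph ι) [DecidableRel R.Adj] (s : ι → ℝ)
    (h : ∀ u v, s u ≠ 0 → s v ≠ 0 → u ≠ v → R.Adj u v) :
    DD R s = (∑ v, s v) ^ 2 - ∑ v, s v ^ 2 := by
  unfold DD
  rw [sq, Finset.sum_mul_sum, ← Finset.sum_sub_distrib]
  refine Finset.sum_congr rfl fun u _ => ?_
  have h1 : s u ^ 2 = ∑ v, if u = v then s u * s v else 0 := by
    rw [Finset.sum_ite_eq]; simp [sq]
  rw [h1, ← Finset.sum_sub_distrib]
  refine Finset.sum_congr rfl fun v _ => ?_
  by_cases huv : u = v
  · subst huv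
    rw [if_neg (R.loopless.irrefl u), if_pos rfl]; ring
  · rw [if_neg huv]
    by_cases ha : R.Adj u v
    · rw [if_pos ha]; ring
    · rw [if_neg ha]
      by_contra hne
      have h2 : s u * s v ≠ 0 := fun h0 => hne (by rw [h0]; ring)
      exact ha (h u v (left_ne_zero_of_mul h2) (right_ne_zero_of_mul h2) huv)

/-- Step 1a. -/
theorem step1a (R : SimpleGraph ι) [DecidableRel R.Adj] {t : ℕ} (ht : 2 ≤ t) (y : ι → ℝ)
    (hy : Feas R t y) (S : Finset ι) (hS : ∀ u ∈ S, ∀ v ∈ S, u ≠ v → R.Adj u v)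
    (m : ι → ℝ) (hm0 : ∀ v ∈ S, 0 ≤ m v) (hm2 : ∀ v ∈ S, m v ≤ 2)
    (hsum : ∑ v ∈ S, m v = 2 * t) :
    0 ≤ ∑ v ∈ S, (m v * (y v - (t - 1 / 2)) + max 0 (m v - 1)) := by
  classical
  set z : ι → ℝ := fun v => y v - (t - 1 / 2) with hz
  set c : ι × Bool → ℝ := fun e => z e.1 + if e.2 then 1 else 0 with hc
  set x : ι × Bool → ℝ := fun e => if e.2 then max 0 (m e.1 - 1) else m e.1 - max 0 (m e.1 - 1)
    with hx
  have hsplit : ∀ f : ι × Bool → ℝ, ∑ e ∈ S ×ˢ (univ : Finset Bool), f e =
      ∑ v ∈ S, (f (v, true) + f (v, false)) := by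
    intro f
    rw [Finset.sum_product]
    exact Finset.sum_congr rfl fun v _ => Fintype.sum_bool _
  obtain ⟨T, hTF, hTK, hTc⟩ := knap (S ×ˢ (univ : Finset Bool)) c x (2 * t) (by omega)
    (by
      rintro ⟨v, b⟩ he
      have hv : v ∈ S := (mem_product.1 he).1
      have h0 := hm0 v hv
      cases b
      · show 0 ≤ m v - max 0 (m v - 1)
        rcases le_total 0 (m v - 1) with h | h
        · rw [max_eq_right h]; linarith
        · rw [max_eq_left h]; linarith
      · show 0 ≤ max 0 (m v - 1)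
        exact le_max_left _ _)
    (by
      rintro ⟨v, b⟩ he
      have hv : v ∈ S := (mem_product.1 he).1
      have h0 := hm2 v hv
      cases b
      · show m v - max 0 (m v - 1) ≤ 1
        have := le_max_right 0 (m v - 1)
        linarith
      · show max 0 (m v - 1) ≤ 1
        exact max_le (by norm_num) (by linarith))
    (by
      rw [hsplit, ← sub_eq_zero]
      simp only [hx, if_true, Bool.false_eq_true, if_false]
      have : ∑ v ∈ S, (max 0 (m v - 1) + (m v - max 0 (m v - 1))) = ∑ v ∈ S, m v :=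
        Finset.sum_congr rfl fun v _ => by ring
      rw [this, hsum]; push_cast; ring)
  -- the integer vector
  set k : ι → ℕ := fun v => (if (v, true) ∈ T then 1 else 0) + (if (v, false) ∈ T then 1 else 0)
    with hk
  have hkS : ∀ v, v ∉ S → k v = 0 := by
    intro v hv
    have h1 : ∀ b, (v, b) ∉ T := fun b hb => hv (mem_product.1 (hTF hb)).1
    simp [hk, h1]
  have hTsum : ∀ f : ι × Bool → ℝ, ∑ e ∈ T, f e =
      ∑ v, ((if (v, true) ∈ T then f (v, true) else 0) +
        (if (v, false) ∈ T then f (v, false) else 0)) := by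
    intro f
    have h1 : ∑ e ∈ T, f e = ∑ e : ι × Bool, if e ∈ T then f e else 0 := by
      rw [← Finset.sum_filter]; congr 1; ext e; simp
    rw [h1, Fintype.sum_prod_type]
    exact Finset.sum_congr rfl fun v _ => Fintype.sum_bool _
  have hksum : ∑ v, k v = 2 * t := by
    have h1 := hTsum (fun _ => 1)
    rw [Finset.sum_const, nsmul_eq_mul, mul_one, hTK] at h1
    have h2 : ((∑ v, k v : ℕ) : ℝ) = ((2 * t : ℕ) : ℝ) := by
      rw [h1]; push_cast [hk]; rfl
    exact_mod_cast h2
  have htile := hy.tile k hksum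
  rw [DD_clique R (fun v => (k v : ℝ)) (by
    intro u v hu hv huv
    refine hS u ?_ v ?_ huv
    · by_contra h; exact hu (by simp [hkS u h])
    · by_contra h; exact hv (by simp [hkS v h]))] at htile
  have hks : (∑ v, (k v : ℝ)) = 2 * t := by exact_mod_cast hksum
  rw [hks] at htile
  have h3 : 0 ≤ ∑ v, ((k v : ℝ) * z v + ((k v : ℝ) ^ 2 - k v) / 2) := by
    have h4 : ∑ v, ((k v : ℝ) * z v + ((k v : ℝ) ^ 2 - k v) / 2) =
        ∑ v, (k v : ℝ) * y v - (t - 1 / 2) * ∑ v, (k v : ℝ) +
          (∑ v, (k v : ℝ) ^ 2 - ∑ v, (k v : ℝ)) / 2 := by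
      rw [Finset.mul_sum, ← Finset.sum_sub_distrib, ← Finset.sum_sub_distrib, Finset.sum_div,
        ← Finset.sum_add_distrib]
      exact Finset.sum_congr rfl fun v _ => by simp only [hz]; ring
    rw [h4, hks]
    nlinarith
  have h5 : ∑ v, ((k v : ℝ) * z v + ((k v : ℝ) ^ 2 - k v) / 2) ≤ ∑ e ∈ T, c e := by
    rw [hTsum c]
    refine Finset.sum_le_sum fun v _ => ?_
    simp only [hk, hc]
    by_cases h1 : (v, true) ∈ T <;> by_cases h2 : (v, false) ∈ T <;> simp [h1, h2] <;>
      (ring_nf; norm_num)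
  have h6 : ∑ e ∈ S ×ˢ (univ : Finset Bool), c e * x e =
      ∑ v ∈ S, (m v * z v + max 0 (m v - 1)) := by
    rw [hsplit]
    refine Finset.sum_congr rfl fun v _ => ?_
    simp only [hc, hx, if_true, Bool.false_eq_true, if_false]
    ring
  calc 0 ≤ ∑ v, ((k v : ℝ) * z v + ((k v : ℝ) ^ 2 - k v) / 2) := h3
    _ ≤ ∑ e ∈ T, c e := h5
    _ ≤ _ := hTc
    _ = _ := h6

/-- Step 1. -/
theorem step1 (R : SimpleGraph ι) [DecidableRel R.Adj] {t : ℕ} (ht : 2 ≤ t) (y : ι → ℝ)
    (hy : Feas R t y) (S : Finset ι) (hS : ∀ u ∈ S, ∀ v ∈ S, u ≠ v → R.Adj u v)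
    (x : ι → ℝ) (hx0 : ∀ v ∈ S, 0 < x v) (hsum : ∑ v ∈ S, x v = 1) :
    0 ≤ ∑ v ∈ S, x v * (y v - (t - 1 / 2)) + t / 2 * ∑ v ∈ S, x v ^ 2 := by
  have ht' : (2 : ℝ) ≤ t := by exact_mod_cast ht
  set z : ι → ℝ := fun v => y v - (t - 1 / 2) with hz
  have hz0 : ∀ v, -(1 / 2) ≤ z v := fun v => by
    have := hy.low v
    simp only [hz]; linarith
  have hSne : S.Nonempty := by
    rw [Finset.nonempty_iff_ne_empty]
    rintro rfl
    simp at hsum
  by_cases hcard : S.card ≤ t
  · have h1 : -(1/2) ≤ ∑ v ∈ S, x v * z v := by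
      calc -(1/2 : ℝ) = ∑ v ∈ S, x v * (-(1/2)) := by rw [← Finset.sum_mul, hsum]; ring
        _ ≤ _ := Finset.sum_le_sum fun v hv => mul_le_mul_of_nonneg_left (hz0 v) (hx0 v hv).le
    have h2 := sq_sum_le_card_mul_sum_sq (s := S) (f := x)
    rw [hsum] at h2
    have h3 : (S.card : ℝ) ≤ t := by exact_mod_cast hcard
    have h4 : 0 ≤ ∑ v ∈ S, x v ^ 2 := Finset.sum_nonneg fun _ _ => sq_nonneg _
    have h5 : (S.card : ℝ) * ∑ v ∈ S, x v ^ 2 ≤ t * ∑ v ∈ S, x v ^ 2 :=
      mul_le_mul_of_nonneg_right h3 h4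
    linarith
  · push Not at hcard
    -- choose the truncation level
    obtain ⟨v0, hv0S, hv0⟩ := Finset.exists_min_image S x hSne
    have hτ0 : 0 < x v0 := hx0 v0 hv0S
    have hx1 : ∀ v ∈ S, x v ≤ 1 := by
      intro v hv
      rw [← hsum]
      exact Finset.single_le_sum (fun w hw => (hx0 w hw).le) hv
    have hcont : Continuous fun τ : ℝ => ∑ v ∈ S, min (x v) τ - t * τ := by fun_prop
    have hivt := intermediate_value_Icc' (f := fun τ : ℝ => ∑ v ∈ S, min (x v) τ - t * τ)
      (hx1 v0 hv0S) hcont.continuousOn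
    have hmem : (0:ℝ) ∈ Set.Icc (∑ v ∈ S, min (x v) 1 - t * 1)
        (∑ v ∈ S, min (x v) (x v0) - t * x v0) := by
      constructor
      · have : ∑ v ∈ S, min (x v) 1 = 1 :=
          (Finset.sum_congr rfl fun v hv => min_eq_left (hx1 v hv)).trans hsum
        rw [this]; linarith
      · have : ∑ v ∈ S, min (x v) (x v0) = S.card * x v0 := by
          rw [Finset.sum_congr rfl fun v hv => min_eq_right (hv0 v hv), Finset.sum_const,
            nsmul_eq_mul]
        rw [this]
        have h1 : (t:ℝ) ≤ S.card := by exact_mod_cast hcard.le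
        nlinarith
    obtain ⟨τ, hτ, hτe⟩ := hivt hmem
    have hτpos : 0 < τ := lt_of_lt_of_le hτ0 hτ.1
    set u : ι → ℝ := fun v => min (x v) τ with hu
    set e : ι → ℝ := fun v => x v - u v with he
    have hu0 : ∀ v ∈ S, 0 < u v := fun v hv => lt_min (hx0 v hv) hτpos
    have huτ : ∀ v, u v ≤ τ := fun v => min_le_right _ _
    have he0 : ∀ v, 0 ≤ e v := fun v => by
      have := min_le_left (x v) τ
      simp only [he, hu]; linarith
    have hue : ∀ v, u v * e v = τ * e v := by
      intro v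
      simp only [he, hu]
      rcases le_total (x v) τ with h | h
      · rw [min_eq_left h]; ring
      · rw [min_eq_right h]
    have hsu : ∑ v ∈ S, u v = t * τ := by
      have : ∑ v ∈ S, min (x v) τ - t * τ = 0 := hτe
      simp only [hu]; linarith
    set w : ℝ := ∑ v ∈ S, e v with hw
    have hw1 : w = 1 - t * τ := by
      rw [hw, ← hsu, ← hsum, ← Finset.sum_sub_distrib]
    have hw0 : 0 ≤ w := Finset.sum_nonneg fun v _ => he0 v
    -- apply step 1a
    have hA := step1a R ht y hy S hS (fun v => 2 * u v / τ)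
      (fun v hv => by have := hu0 v hv; positivity)
      (fun v _ => by rw [div_le_iff₀ hτpos]; linarith [huτ v])
      (by rw [← Finset.sum_div, ← Finset.mul_sum, hsu]; field_simp)
    have hB : 0 ≤ ∑ v ∈ S, (2 * u v / τ * z v + (2 * u v / τ) ^ 2 / 4) := by
      refine hA.trans (Finset.sum_le_sum fun v hv => ?_)
      have h1 : max 0 (2 * u v / τ - 1) ≤ (2 * u v / τ) ^ 2 / 4 := by
        refine max_le (by positivity) ?_
        nlinarith [sq_nonneg (2 * u v / τ - 2)]
      simp only [hz]
      linarith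
    have hC : ∑ v ∈ S, (2 * u v / τ * z v + (2 * u v / τ) ^ 2 / 4) =
        2 / τ * ∑ v ∈ S, u v * z v + 1 / τ ^ 2 * ∑ v ∈ S, u v ^ 2 := by
      rw [Finset.mul_sum, Finset.mul_sum, ← Finset.sum_add_distrib]
      refine Finset.sum_congr rfl fun v _ => ?_
      field_simp
      ring
    rw [hC] at hB
    set U2 := ∑ v ∈ S, u v ^ 2 with hU2
    set UZ := ∑ v ∈ S, u v * z v with hUZ
    set E2 := ∑ v ∈ S, e v ^ 2 with hE2
    have hD : 0 ≤ 2 * τ * UZ + U2 := by
      have h1 : 2 * τ * UZ + U2 = τ ^ 2 * (2 / τ * UZ + 1 / τ ^ 2 * U2) := by field_simp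
      rw [h1]; positivity
    have hEZ : -(w / 2) ≤ ∑ v ∈ S, e v * z v := by
      have h1 : -(w / 2) = ∑ v ∈ S, e v * (-(1/2)) := by rw [← Finset.sum_mul]; ring
      rw [h1]
      exact Finset.sum_le_sum fun v _ => mul_le_mul_of_nonneg_left (hz0 v) (he0 v)
    have hxz : ∑ v ∈ S, x v * z v = UZ + ∑ v ∈ S, e v * z v := by
      rw [hUZ, ← Finset.sum_add_distrib]
      exact Finset.sum_congr rfl fun v _ => by simp only [he]; ring
    have hx2 : ∑ v ∈ S, x v ^ 2 = U2 + 2 * τ * w + E2 := by
      rw [hU2, hE2, hw, Finset.mul_sum, ← Finset.sum_add_distrib, ← Finset.sum_add_distrib]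
      refine Finset.sum_congr rfl fun v _ => ?_
      have h1 := hue v
      have h2 : x v = u v + e v := by simp only [he]; ring
      rw [h2]; nlinarith
    have hU2le : U2 ≤ τ * (t * τ) := by
      rw [← hsu, hU2, Finset.mul_sum]
      refine Finset.sum_le_sum fun v hv => ?_
      have h1 := hu0 v hv
      have h2 := huτ v
      nlinarith
    have hE2w : w ^ 2 ≤ t * E2 := by
      set P := S.filter (fun v => 0 < e v) with hP
      have h1 : w = ∑ v ∈ P, e v := by
        rw [hw, hP, Finset.sum_filter]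
        refine Finset.sum_congr rfl fun v _ => ?_
        split_ifs with h
        · rfl
        · exact le_antisymm (not_lt.1 h) (he0 v)
      have h2 := sq_sum_le_card_mul_sum_sq (s := P) (f := e)
      have h3 : ∑ v ∈ P, e v ^ 2 ≤ E2 :=
        Finset.sum_le_sum_of_subset_of_nonneg (Finset.filter_subset _ _) fun _ _ _ => sq_nonneg _
      have h4 : (P.card : ℝ) ≤ t := by
        have h5 : (P.card : ℝ) * τ ≤ t * τ := by
          rw [← hsu]
          calc (P.card : ℝ) * τ = ∑ v ∈ P, τ := by rw [Finset.sum_const, nsmul_eq_mul]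
            _ ≤ ∑ v ∈ P, u v := by
                refine Finset.sum_le_sum fun v hv => ?_
                have h6 : 0 < e v := (Finset.mem_filter.1 hv).2
                have h7 := hue v
                have h8 : u v = τ := mul_right_cancel₀ h6.ne' h7
                exact h8.ge
            _ ≤ ∑ v ∈ S, u v :=
                Finset.sum_le_sum_of_subset_of_nonneg (Finset.filter_subset _ _)
                  fun v hv _ => (hu0 v hv).le
        exact le_of_mul_le_mul_right h5 hτpos
      have h0 : 0 ≤ ∑ v ∈ P, e v ^ 2 := Finset.sum_nonneg fun _ _ => sq_nonneg _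
      have hE20 : 0 ≤ E2 := Finset.sum_nonneg fun _ _ => sq_nonneg _
      rw [h1]
      calc (∑ v ∈ P, e v) ^ 2 ≤ P.card * ∑ v ∈ P, e v ^ 2 := h2
        _ ≤ t * E2 := by gcongr
    -- final computation
    have hgoal : 0 ≤ 2 * (∑ v ∈ S, x v * z v + t / 2 * ∑ v ∈ S, x v ^ 2) := by
      rw [hxz, hx2]
      have h1 : -(U2 / τ) ≤ 2 * UZ := by
        rw [neg_le_iff_add_nonneg, ← mul_nonneg_iff_of_pos_left hτpos]
        have : τ * (2 * UZ + U2 / τ) = 2 * τ * UZ + U2 := by field_simp
        rw [this]; exact hD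
      have h2 : U2 / τ * (1 - t * τ) ≤ (t * τ) * (1 - t * τ) := by
        refine mul_le_mul_of_nonneg_right ?_ (by rw [← hw1]; exact hw0)
        rw [div_le_iff₀ hτpos]; linarith
      have h3 : U2 / τ * (1 - t * τ) = U2 / τ - t * U2 := by field_simp
      have h4 : t * τ = 1 - w := by linarith
      rw [h3, ← hw1] at h2
      nlinarith
    linarith

/-- Step 2. -/
theorem step2 (R : SimpleGraph ι) [DecidableRel R.Adj] {t : ℕ} (ht : 2 ≤ t) (y : ι → ℝ)
    (hy : Feas R t y) (s : ι → ℝ) (hs : ∀ v, 0 ≤ s v)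
    (hcl : ∀ u v, s u ≠ 0 → s v ≠ 0 → u ≠ v → R.Adj u v) :
    (t : ℝ) * (t - 1) * DD R s ≤ (∑ v, y v * s v) ^ 2 := by
  have ht' : (2 : ℝ) ≤ t := by exact_mod_cast ht
  rw [DD_clique R s hcl]
  set X := ∑ v, s v with hX
  set q := ∑ v, s v ^ 2 with hq
  have hX0 : 0 ≤ X := Finset.sum_nonneg fun v _ => hs v
  rcases hX0.eq_or_lt with h0 | hpos
  · have : ∀ v, s v = 0 := by
      intro v
      have := (Finset.sum_eq_zero_iff_of_nonneg (fun v _ => hs v)).1 h0.symm v (Finset.mem_univ v)
      exact this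
    simp [hX, hq, this]
  · set S : Finset ι := Finset.univ.filter (fun v => s v ≠ 0) with hS
    have hsumS : ∀ f : ι → ℝ, (∀ v, s v = 0 → f v = 0) → ∑ v ∈ S, f v = ∑ v, f v := by
      intro f hf
      rw [hS, Finset.sum_filter]
      refine Finset.sum_congr rfl fun v _ => ?_
      split_ifs with h
      · rfl
      · exact (hf v (not_not.1 h)).symm
    have h1 := step1 R ht y hy S
      (fun u hu v hv huv => hcl u v (Finset.mem_filter.1 hu).2 (Finset.mem_filter.1 hv).2 huv)
      (fun v => s v / X)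
      (fun v hv => div_pos (lt_of_le_of_ne (hs v) (Ne.symm (Finset.mem_filter.1 hv).2)) hpos)
      (by
        rw [← Finset.sum_div, hsumS s (fun v h => h), ← hX, div_self hpos.ne'])
    rw [hsumS (fun v => s v / X * (y v - (t - 1 / 2))) (fun v h => by simp [h]),
      hsumS (fun v => (s v / X) ^ 2) (fun v h => by simp [h])] at h1
    set Z := ∑ v, s v * (y v - (t - 1 / 2)) with hZ
    have h2 : ∑ v, s v / X * (y v - (t - 1 / 2)) = Z / X := by
      rw [hZ, Finset.sum_div]
      exact Finset.sum_congr rfl fun v _ => by ring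
    have h3 : ∑ v, (s v / X) ^ 2 = q / X ^ 2 := by
      rw [hq, Finset.sum_div]
      exact Finset.sum_congr rfl fun v _ => by rw [div_pow]
    rw [h2, h3] at h1
    have h4 : 0 ≤ X * Z + t / 2 * q := by
      have : X * Z + t / 2 * q = X ^ 2 * (Z / X + t / 2 * (q / X ^ 2)) := by field_simp
      rw [this]; positivity
    have h5 : ∑ v, y v * s v = Z + (t - 1 / 2) * X := by
      rw [hZ, hX, Finset.mul_sum, ← Finset.sum_add_distrib]
      exact Finset.sum_congr rfl fun v _ => by ring
    rw [h5]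
    have h6 : (Z + (t - 1 / 2) * X) ^ 2 - t * (t - 1) * (X ^ 2 - q) =
        (Z + X / 2) ^ 2 + 2 * (t - 1) * (X * Z + t / 2 * q) := by ring
    have h7 : 0 ≤ (Z + X / 2) ^ 2 + 2 * (t - 1) * (X * Z + t / 2 * q) := by
      have : 0 ≤ (t:ℝ) - 1 := by linarith
      positivity
    linarith

/-- mixed form -/
noncomputable def BB (R : SimpleGraph ι) [DecidableRel R.Adj] (s d : ι → ℝ) : ℝ :=
  ∑ u, ∑ v, if R.Adj u v then s u * d v + d u * s v else 0

theorem DD_add_smul (R : SimpleGraph ι) [DecidableRel R.Adj] (s d : ι → ℝ) (θ : ℝ) :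
    DD R (fun v => s v + θ * d v) = DD R s + θ * BB R s d + θ ^ 2 * DD R d := by
  unfold DD BB
  rw [Finset.mul_sum, Finset.mul_sum, ← Finset.sum_add_distrib, ← Finset.sum_add_distrib]
  refine Finset.sum_congr rfl fun u _ => ?_
  rw [Finset.mul_sum, Finset.mul_sum, ← Finset.sum_add_distrib, ← Finset.sum_add_distrib]
  refine Finset.sum_congr rfl fun v _ => ?_
  split_ifs <;> ring

end Aux

open Aux

theorem main_ineq (R : SimpleGraph ι) [DecidableRel R.Adj] {t : ℕ} (ht : 2 ≤ t) (y : ι → ℝ)
    (hy : Feas R t y) (s : ι → ℝ) (hs : ∀ v, 0 ≤ s v) :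
    (t : ℝ) * (t - 1) * DD R s ≤ (∑ v, y v * s v) ^ 2 := by
  have ht' : (2 : ℝ) ≤ t := by exact_mod_cast ht
  have hypos : ∀ v, 0 < y v := fun v => by
    have := hy.low v
    linarith
  induction hn : (Finset.univ.filter (fun v => s v ≠ 0)).card using Nat.strong_induction_on
    generalizing s with
  | _ n ih =>
    by_cases hcl : ∀ u v, s u ≠ 0 → s v ≠ 0 → u ≠ v → R.Adj u v
    · exact step2 R ht y hy s hs hcl
    · push Not at hcl
      obtain ⟨u, v, hu, hv, huv, hadj⟩ := hcl
      set d : ι → ℝ := fun a => if a = u then (y u)⁻¹ else if a = v then -(y v)⁻¹ else 0 with hd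
      have hdu : d u = (y u)⁻¹ := by simp [hd]
      have hdv : d v = -(y v)⁻¹ := by simp [hd, huv.symm]
      have hdo : ∀ a, a ≠ u → a ≠ v → d a = 0 := fun a h1 h2 => by simp [hd, h1, h2]
      have hDd : DD R d = 0 := by
        unfold DD
        refine Finset.sum_eq_zero fun a _ => Finset.sum_eq_zero fun b _ => ?_
        split_ifs with hab
        · by_cases hau : a = u
          · by_cases hbv : b = v
            · subst hau; subst hbv; exact absurd hab hadj
            · by_cases hbu : b = u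
              · subst hau; subst hbu; exact absurd hab (R.loopless.irrefl _)
              · rw [hdo b hbu hbv, mul_zero]
          · by_cases hav : a = v
            · by_cases hbu : b = u
              · subst hav; subst hbu; exact absurd hab.symm hadj
              · by_cases hbv : b = v
                · subst hav; subst hbv; exact absurd hab (R.loopless.irrefl _)
                · rw [hdo b hbu hbv, mul_zero]
            · rw [hdo a hau hav, zero_mul]
        · rfl
      have hyd : ∑ a, y a * d a = 0 := by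
        rw [← Finset.sum_erase_add _ _ (Finset.mem_univ u),
          ← Finset.sum_erase_add _ _ (Finset.mem_erase.2 ⟨huv.symm, Finset.mem_univ v⟩),
          Finset.sum_eq_zero, hdu, hdv]
        · have := (hypos u).ne'
          have := (hypos v).ne'
          field_simp
          norm_num
        · intro a ha
          rw [Finset.mem_erase, Finset.mem_erase] at ha
          rw [hdo a ha.2.1 ha.1, mul_zero]
      -- move
      have key : ∀ θ : ℝ, 0 ≤ θ * BB R s d → (∀ a, 0 ≤ s a + θ * d a) →
          (∃ a, s a ≠ 0 ∧ s a + θ * d a = 0) →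
          (t : ℝ) * (t - 1) * DD R s ≤ (∑ v, y v * s v) ^ 2 := by
        intro θ h1 h2 ⟨a, ha, ha0⟩
        have h3 : DD R s ≤ DD R (fun v => s v + θ * d v) := by
          rw [DD_add_smul, hDd]; linarith
        have h4 : ∑ v, y v * (s v + θ * d v) = ∑ v, y v * s v := by
          have : ∑ v, y v * (s v + θ * d v) = ∑ v, y v * s v + θ * ∑ v, y v * d v := by
            rw [Finset.mul_sum, ← Finset.sum_add_distrib]
            exact Finset.sum_congr rfl fun v _ => by ring
          rw [this, hyd]; ring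
        have h5 : (Finset.univ.filter (fun v => s v + θ * d v ≠ 0)).card < n := by
          rw [← hn]
          refine Finset.card_lt_card ?_
          rw [Finset.ssubset_iff_of_subset]
          · exact ⟨a, by simp [ha], by simp [ha0]⟩
          · intro b hb
            rw [Finset.mem_filter] at hb ⊢
            refine ⟨Finset.mem_univ _, fun hsb => ?_⟩
            have h6 : b ≠ u := fun h => hu (h ▸ hsb)
            have h7 : b ≠ v := fun h => hv (h ▸ hsb)
            exact hb.2 (by rw [hsb, hdo b h6 h7]; ring)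
        have h6 := ih _ h5 (fun v => s v + θ * d v) h2 rfl
        rw [h4] at h6
        refine le_trans ?_ h6
        have : 0 ≤ (t:ℝ) * (t - 1) := by nlinarith
        exact mul_le_mul_of_nonneg_left h3 this
      have hsu : 0 < s u := lt_of_le_of_ne (hs u) (Ne.symm hu)
      have hsv : 0 < s v := lt_of_le_of_ne (hs v) (Ne.symm hv)
      have hyu := hypos u
      have hyv := hypos v
      rcases le_total 0 (BB R s d) with hB | hB
      · refine key (s v * y v) (by positivity) ?_ ⟨v, hv, ?_⟩
        · intro a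
          by_cases hau : a = u
          · subst hau; rw [hdu]; positivity
          · by_cases hav : a = v
            · subst hav; rw [hdv]
              have : s a + s a * y a * -(y a)⁻¹ = 0 := by field_simp; ring
              rw [this]
            · rw [hdo a hau hav, mul_zero, add_zero]; exact hs a
        · rw [hdv]; field_simp; ring
      · refine key (-(s u * y u)) (by
          have := mul_nonneg (by positivity : 0 ≤ s u * y u) (neg_nonneg.2 hB)
          linarith) ?_ ⟨u, hu, ?_⟩
        · intro a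
          by_cases hau : a = u
          · subst hau; rw [hdu]
            have : s a + -(s a * y a) * (y a)⁻¹ = 0 := by field_simp; ring
            rw [this]
          · by_cases hav : a = v
            · subst hav; rw [hdv]
              have : s a + -(s u * y u) * -(y a)⁻¹ = s a + s u * y u * (y a)⁻¹ := by ring
              rw [this]; positivity
            · rw [hdo a hau hav, mul_zero, add_zero]; exact hs a
        · rw [hdu]; field_simp; ring

theorem exists_packing (R : SimpleGraph ι) [DecidableRel R.Adj] {t : ℕ} (ht : 2 ≤ t)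
    (s : ι → ℝ) (hs : ∀ v, 0 ≤ s v) {η : ℝ} (hη : 0 < η) :
    ∃ w : (ι → ℕ) → ℝ, (∀ m, 0 ≤ w m) ∧
      (∀ v, ∑ m ∈ Finset.piAntidiag Finset.univ (2 * t), w m * (m v : ℝ) ≤ s v) ∧
      Real.sqrt ((t : ℝ) * (t - 1) * DD R s) ≤ ((t : ℝ) - 1) * ∑ v, s v +
        (∑ m ∈ Finset.piAntidiag Finset.univ (2 * t),
          w m * (DD R (fun v => (m v : ℝ)) / 2 - 2 * t * (t - 1))) + η := by
  have ht' : (2 : ℝ) ≤ t := by exact_mod_cast ht
  set M : Finset (ι → ℕ) := Finset.piAntidiag Finset.univ (2 * t) with hM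
  have hMmem : ∀ m : ι → ℕ, m ∈ M ↔ ∑ v, m v = 2 * t := by
    intro m
    rw [hM, Finset.mem_piAntidiag]
    simp
  set gain : (ι → ℕ) → ℝ := fun m => DD R (fun v => (m v : ℝ)) / 2 - 2 * t * (t - 1) with hgain
  set S0 : ℝ := ∑ v, s v with hS0
  have hS00 : 0 ≤ S0 := Finset.sum_nonneg fun v _ => hs v
  set c : ℝ := Real.sqrt ((t : ℝ) * (t - 1) * DD R s) - (t - 1) * S0 with hc
  by_cases hc0 : c ≤ 0
  · refine ⟨fun _ => 0, fun _ => le_rfl, fun v => by simpa using hs v, ?_⟩
    simp only [zero_mul, Finset.sum_const_zero, add_zero]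
    linarith
  push Not at hc0
  by_contra hcon
  -- large bound
  obtain ⟨W, hW0, hW⟩ : ∃ W : ℝ, 0 < W ∧ c / (2 * t * W) * S0 ≤ η := by
    refine ⟨c * (S0 + 1) / (2 * t * η), by positivity, ?_⟩
    have h1 : c / (2 * t * (c * (S0 + 1) / (2 * t * η))) = η / (S0 + 1) := by
      field_simp
    rw [h1, div_mul_eq_mul_div, div_le_iff₀ (by positivity)]
    nlinarith
  -- the linear map
  set L : (M → ℝ) → (ι → ℝ) × ℝ := fun w =>
    (fun v => ∑ m : M, w m * ((m : ι → ℕ) v : ℝ), ∑ m : M, w m * gain m) with hL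
  have hLlin : IsLinearMap ℝ L := by
    constructor
    · intro a b
      ext v
      · simp only [hL, Prod.fst_add, Pi.add_apply, ← Finset.sum_add_distrib]
        exact Finset.sum_congr rfl fun m _ => by ring
      · simp only [hL, Prod.snd_add, Pi.add_apply, ← Finset.sum_add_distrib]
        exact Finset.sum_congr rfl fun m _ => by ring
    · intro r a
      ext v
      · simp only [hL, Prod.smul_fst, Pi.smul_apply, smul_eq_mul, Finset.mul_sum]
        exact Finset.sum_congr rfl fun m _ => by ring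
      · simp only [hL, Prod.smul_snd, Pi.smul_apply, smul_eq_mul, Finset.mul_sum]
        exact Finset.sum_congr rfl fun m _ => by ring
  have hLcont : Continuous L := by fun_prop
  set K1 : Set ((ι → ℝ) × ℝ) := L '' Set.Icc (fun _ => 0) (fun _ => W) with hK1
  have hK1c : IsCompact K1 := isCompact_Icc.image hLcont
  have hK1v : Convex ℝ K1 := (convex_Icc _ _).is_linear_image hLlin
  set K2 : Set ((ι → ℝ) × ℝ) := {p | (∀ v, p.1 v ≤ s v) ∧ c - η ≤ p.2} with hK2
  have hK2v : Convex ℝ K2 := by
    intro p hp q hq a b ha hb hab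
    refine ⟨fun v => ?_, ?_⟩
    · show a * p.1 v + b * q.1 v ≤ s v
      have h1 := mul_le_mul_of_nonneg_left (hp.1 v) ha
      have h2 := mul_le_mul_of_nonneg_left (hq.1 v) hb
      calc a * p.1 v + b * q.1 v ≤ a * s v + b * s v := add_le_add h1 h2
        _ = s v := by rw [← add_mul, hab, one_mul]
    · show c - η ≤ a * p.2 + b * q.2
      have h1 := mul_le_mul_of_nonneg_left hp.2 ha
      have h2 := mul_le_mul_of_nonneg_left hq.2 hb
      calc c - η = a * (c - η) + b * (c - η) := by rw [← add_mul, hab, one_mul]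
        _ ≤ _ := add_le_add h1 h2
  have hK2c : IsClosed K2 := by
    have : K2 = (⋂ v, {p : (ι → ℝ) × ℝ | p.1 v ≤ s v}) ∩ {p | c - η ≤ p.2} := by
      ext p; simp [hK2]
    rw [this]
    refine IsClosed.inter (isClosed_iInter fun v => isClosed_le (by fun_prop) continuous_const)
      (isClosed_le continuous_const (by fun_prop))
  have hdisj : Disjoint K1 K2 := by
    rw [Set.disjoint_left]
    rintro p ⟨w, hw, rfl⟩ ⟨h1, h2⟩
    apply hcon
    classical
    refine ⟨fun m => if h : m ∈ M then w ⟨m, h⟩ else 0, ?_, ?_, ?_⟩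
    · intro m
      show 0 ≤ if h : m ∈ M then w ⟨m, h⟩ else 0
      by_cases h : m ∈ M
      · rw [dif_pos h]; exact hw.1 _
      · rw [dif_neg h]
    · intro v
      refine le_trans (le_of_eq ?_) (h1 v)
      simp only [hL]
      rw [← Finset.sum_attach M, Finset.univ_eq_attach]
      exact Finset.sum_congr rfl fun m _ => by rw [dif_pos m.2]
    · have h3 : ∑ m ∈ M, (if h : m ∈ M then w ⟨m, h⟩ else 0) * gain m =
          ∑ m : M, w m * gain m := by
        rw [← Finset.sum_attach M, Finset.univ_eq_attach]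
        exact Finset.sum_congr rfl fun m _ => by rw [dif_pos m.2]
      have h4 : c - η ≤ ∑ m : M, w m * gain m := h2
      simp only [hgain] at h3 h4
      rw [h3]
      linarith
  obtain ⟨f, u1, u2, hf1, hu, hf2⟩ :=
    geometric_hahn_banach_compact_closed hK1v hK1c hK2v hK2c hdisj
  set α : ι → ℝ := fun v => f (Pi.single v 1, 0) with hα
  set β : ℝ := f (0, 1) with hβ
  have hf : ∀ p : (ι → ℝ) × ℝ, f p = ∑ v, α v * p.1 v + β * p.2 := by
    intro p
    have h1 : p = ∑ v, p.1 v • ((Pi.single v (1 : ℝ), 0) : (ι → ℝ) × ℝ) +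
        p.2 • ((0, 1) : (ι → ℝ) × ℝ) := by
      ext v
      · simp [Prod.fst_sum, Finset.sum_apply, Pi.single_apply]
      · simp [Prod.snd_sum]
    conv_lhs => rw [h1]
    rw [map_add, map_sum, map_smul, smul_eq_mul]
    congr 1
    · refine Finset.sum_congr rfl fun v _ => ?_
      rw [map_smul, smul_eq_mul, mul_comm]
    · rw [mul_comm]
  -- signs
  have hbase : u2 < ∑ v, α v * s v + β * (c - η) := by
    have := hf2 (s, c - η) ⟨fun v => le_rfl, le_rfl⟩
    rwa [hf] at this
  have hβ0 : 0 ≤ β := by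
    by_contra h
    push Not at h
    -- go up in the last coordinate
    set X := ∑ v, α v * s v + β * (c - η) - u2 with hX
    have hX0 : 0 < X := by linarith
    have h1 := hf2 (s, c - η + (X + 1) / (-β)) ⟨fun v => le_rfl, by
      have : 0 < (X + 1) / (-β) := div_pos (by linarith) (by linarith)
      linarith⟩
    rw [hf] at h1
    simp only at h1
    have h2 : β * (c - η + (X + 1) / (-β)) = β * (c - η) - (X + 1) := by
      have : β ≠ 0 := h.ne
      field_simp
      ring
    rw [h2] at h1
    linarith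
  have hα0 : ∀ v, α v ≤ 0 := by
    intro v
    by_contra h
    push Not at h
    set X := ∑ v, α v * s v + β * (c - η) - u2 with hX
    have hX0 : 0 < X := by linarith
    have h1 := hf2 (fun a => s a - if a = v then (X + 1) / α v else 0, c - η) ⟨fun a => by
      show s a - _ ≤ s a
      have : 0 < (X + 1) / α v := div_pos (by linarith) h
      split_ifs <;> linarith, le_rfl⟩
    rw [hf] at h1
    simp only at h1
    have h2 : ∑ a, α a * (s a - if a = v then (X + 1) / α v else 0) =
        ∑ a, α a * s a - (X + 1) := by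
      simp_rw [mul_sub, Finset.sum_sub_distrib, mul_ite, mul_zero, Finset.sum_ite_eq',
        Finset.mem_univ, if_true]
      rw [mul_div_cancel₀ _ h.ne']
    rw [h2] at h1
    linarith
  have hu1 : 0 < u1 := by
    have h1 := hf1 0 ⟨0, ⟨fun _ => le_rfl, fun _ => hW0.le⟩, by
      have := hLlin.map_zero
      exact this⟩
    rwa [map_zero] at h1
  have hαs : ∑ v, α v * s v ≤ 0 :=
    Finset.sum_nonpos fun v _ => mul_nonpos_of_nonpos_of_nonneg (hα0 v) (hs v)
  have hβpos : 0 < β := by
    rcases hβ0.eq_or_lt with h | h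
    · rw [← h] at hbase; linarith
    · exact h
  -- dual prices
  have hgainm : ∀ m ∈ M, gain m ≤ ∑ v, (-α v / β) * (m v : ℝ) + c / W := by
    intro m hm
    classical
    have h1 := hf1 (L (fun a => if a = ⟨m, hm⟩ then W else 0))
      ⟨_, ⟨fun a => by
        show 0 ≤ if a = ⟨m, hm⟩ then W else 0
        split_ifs <;> linarith, fun a => by
        show (if a = ⟨m, hm⟩ then W else 0) ≤ W
        split_ifs <;> linarith⟩, rfl⟩
    rw [hf] at h1
    have h2 : ∀ v, (L (fun a => if a = ⟨m, hm⟩ then W else 0)).1 v = W * (m v : ℝ) := by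
      intro v
      simp only [hL, ite_mul, zero_mul, Finset.sum_ite_eq', Finset.mem_univ, if_true]
    have h3 : (L (fun a => if a = ⟨m, hm⟩ then W else 0)).2 = W * gain m := by
      simp only [hL, ite_mul, zero_mul, Finset.sum_ite_eq', Finset.mem_univ, if_true]
    rw [h3] at h1
    simp_rw [h2] at h1
    have h4 : ∑ v, α v * (W * (m v : ℝ)) = W * ∑ v, α v * (m v : ℝ) := by
      rw [Finset.mul_sum]; exact Finset.sum_congr rfl fun v _ => by ring
    rw [h4] at h1
    have h5 : W * ∑ v, α v * (m v : ℝ) + β * (W * gain m) < β * c := by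
      have : β * (c - η) ≤ β * c := by
        have := mul_pos hβpos hη
        linarith
      linarith
    have h6 : ∑ v, (-α v / β) * (m v : ℝ) = -(∑ v, α v * (m v : ℝ)) / β := by
      rw [neg_div, Finset.sum_div, ← Finset.sum_neg_distrib]
      exact Finset.sum_congr rfl fun v _ => by ring
    rw [h6]
    have h7 : gain m * (β * W) ≤ (-(∑ v, α v * (m v : ℝ)) / β + c / W) * (β * W) := by
      have : (-(∑ v, α v * (m v : ℝ)) / β + c / W) * (β * W) =
          -(W * ∑ v, α v * (m v : ℝ)) + β * c := by field_simp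
      rw [this]; linarith
    exact le_of_mul_le_mul_right h7 (by positivity)
  set y : ι → ℝ := fun v => (t - 1) + (-α v / β) + c / (2 * t * W) with hy
  have hyF : Feas R t y := by
    constructor
    · intro v
      have h1 : 0 ≤ -α v / β := div_nonneg (by linarith [hα0 v]) hβpos.le
      have h2 : 0 ≤ c / (2 * t * W) := by positivity
      simp only [hy]; linarith
    · intro m hm
      have h1 := hgainm m ((hMmem m).2 hm)
      have hms : (∑ v, (m v : ℝ)) = 2 * t := by exact_mod_cast hm
      have h2 : ∑ v, (m v : ℝ) * y v = (t - 1) * ∑ v, (m v : ℝ) +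
          ∑ v, (-α v / β) * (m v : ℝ) + c / (2 * t * W) * ∑ v, (m v : ℝ) := by
        rw [Finset.mul_sum, Finset.mul_sum, ← Finset.sum_add_distrib, ← Finset.sum_add_distrib]
        exact Finset.sum_congr rfl fun v _ => by simp only [hy]; ring
      rw [h2, hms]
      have h3 : c / (2 * t * W) * (2 * t) = c / W := by field_simp
      rw [h3]
      simp only [hgain] at h1
      linarith
  have hmain := main_ineq R ht y hyF s hs
  have hys : ∑ v, y v * s v = (t - 1) * S0 + (-(∑ v, α v * s v) / β) +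
      c / (2 * t * W) * S0 := by
    have h1 : -(∑ v, α v * s v) / β = ∑ v, (-α v / β) * s v := by
      rw [neg_div, Finset.sum_div, ← Finset.sum_neg_distrib]
      exact Finset.sum_congr rfl fun v _ => by ring
    rw [h1, hS0, Finset.mul_sum, Finset.mul_sum, ← Finset.sum_add_distrib,
      ← Finset.sum_add_distrib]
    exact Finset.sum_congr rfl fun v _ => by simp only [hy]; ring
  have hys0 : 0 ≤ ∑ v, y v * s v := by
    refine Finset.sum_nonneg fun v _ => mul_nonneg ?_ (hs v)
    have := hyF.low v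
    linarith
  have h8 : Real.sqrt ((t : ℝ) * (t - 1) * DD R s) ≤ ∑ v, y v * s v :=
    Real.sqrt_le_iff.2 ⟨hys0, hmain⟩
  have h9 : -(∑ v, α v * s v) / β < c - η := by
    rw [div_lt_iff₀ hβpos]
    linarith
  rw [hys] at h8
  linarith

end Pool.Agent.H.MP_69c6fe_co
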