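import Mathlib
import Pool.Agent.H.MP_69c6fe_co.Ach

/-!
# Finding tiles in a regular system
-/

namespace Pool.Agent.H.MP_69c6fe_co

open Finset SimpleGraph

variable {V : Type*} [Fintype V] [DecidableEq V] {ι : Type*} [Fintype ι] [DecidableEq ι]

/-- A system of disjoint clusters; clusters adjacent in `R` form lower-regular pairs. -/
structure Sys (G : SimpleGraph V) [DecidableRel G.Adj] (A : ι → Finset V) (R : SimpleGraph ι)
    (ε δ : ℝ) : Prop where
  disj : ∀ u v, u ≠ v → Disjoint (A u) (A v)
  reg : ∀ u v, R.Adj u v → ∀ S ⊆ A u, ∀ T ⊆ A v, ε * #(A u) ≤ #S → ε * #(A v) ≤ #T →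
    δ * #S * #T ≤ ∑ x ∈ S, (#(T.filter (G.Adj x)) : ℝ)

variable {G : SimpleGraph V} [DecidableRel G.Adj] {A : ι → Finset V} {R : SimpleGraph ι}
  {ε δ : ℝ}

/-- choose one vertex with large neighbourhoods in all the candidate sets -/
theorem Sys.step (h : Sys G A R ε δ) (hε : 0 ≤ ε) (u₀ : ι) (N : Finset ι) (hN : ∀ v ∈ N, R.Adj u₀ v)
    (C : Finset V) (hC : C ⊆ A u₀) (D : ι → Finset V) (hD : ∀ v, D v ⊆ A v)
    (hDε : ∀ v ∈ N, ε * #(A v) ≤ #(D v)) (hCε : (#N : ℝ) * (ε * #(A u₀)) < #C) :
    ∃ x ∈ C, ∀ v ∈ N, δ * #(D v) ≤ #((D v).filter (G.Adj x)) := by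
  classical
  by_contra hcon
  push Not at hcon
  set bad : ι → Finset V := fun v => C.filter fun x => (#((D v).filter (G.Adj x)) : ℝ) < δ * #(D v)
    with hbad
  have h1 : C ⊆ N.biUnion bad := by
    intro x hx
    obtain ⟨v, hv, hv2⟩ := hcon x hx
    rw [Finset.mem_biUnion]
    exact ⟨v, hv, Finset.mem_filter.mpr ⟨hx, hv2⟩⟩
  have h2 : #C ≤ ∑ v ∈ N, #(bad v) := (Finset.card_le_card h1).trans Finset.card_biUnion_le
  have h3 : ∃ v ∈ N, ε * #(A u₀) < #(bad v) := by
    by_contra hcon2
    push Not at hcon2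
    have h4 : (#C : ℝ) ≤ ∑ v ∈ N, (#(bad v) : ℝ) := by exact_mod_cast h2
    have h5 := Finset.sum_le_sum hcon2
    rw [Finset.sum_const, nsmul_eq_mul] at h5
    linarith
  obtain ⟨v, hv, hv2⟩ := h3
  have hsub : bad v ⊆ A u₀ := (Finset.filter_subset _ _).trans hC
  have h6 := h.reg u₀ v (hN v hv) (bad v) hsub (D v) (hD v) hv2.le (hDε v hv)
  have hne : (bad v).Nonempty := by
    rw [← Finset.card_pos]
    have h7 : (0 : ℝ) ≤ ε * #(A u₀) := by positivity
    exact_mod_cast h7.trans_lt hv2
  have h7 : ∑ x ∈ bad v, (#((D v).filter (G.Adj x)) : ℝ) < ∑ x ∈ bad v, δ * #(D v) :=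
    Finset.sum_lt_sum_of_nonempty hne fun x hx => (Finset.mem_filter.mp hx).2
  rw [Finset.sum_const, nsmul_eq_mul] at h7
  nlinarith

/-- Tiles: every blow-up pattern with at most `M` vertices can be found inside large subsets. -/
theorem Sys.tile (h : Sys G A R ε δ) (hε : 0 ≤ ε) {c β : ℝ} (hc0 : 0 < c)
    (hcδ : c ≤ δ) (hc2 : c ≤ 1 / 2) (hβ : 0 < β) (M : ℕ)
    (hM : ((M : ℝ) + 1) * ε ≤ β * c ^ M) (hbig : ∀ v, 2 ≤ β * c ^ M * #(A v)) (n : ℕ) :
    ∀ (m : ι → ℕ), ∑ v, m v = n → n ≤ M → ∀ C : ι → Finset V, (∀ v, C v ⊆ A v) →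
      (∀ v, 0 < m v → β * c ^ (M - n) * #(A v) ≤ #(C v)) →
      ∃ S : ι → Finset V, (∀ v, S v ⊆ C v) ∧ (∀ v, #(S v) = m v) ∧
        ∀ u v, R.Adj u v → ∀ x ∈ S u, ∀ y ∈ S v, G.Adj x y := by
  classical
  have hc1 : c ≤ 1 := hc2.trans (by norm_num)
  induction n with
  | zero =>
    intro m hm _ C _ _
    refine ⟨fun _ => ∅, fun v => Finset.empty_subset _, ?_, ?_⟩
    · intro v
      have : m v = 0 := by
        have := Finset.sum_eq_zero_iff.mp hm v (Finset.mem_univ v)
        exact this
      rw [this, Finset.card_empty]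
    · intro u v _ x hx
      simp at hx
  | succ n ih =>
    intro m hm hnM C hCA hC
    have hex : ∃ u₀, 0 < m u₀ := by
      by_contra hcon
      push Not at hcon
      have : ∑ v, m v = 0 := Finset.sum_eq_zero fun v _ => by have := hcon v; omega
      omega
    obtain ⟨u₀, hu₀⟩ := hex
    set N : Finset ι := Finset.univ.filter fun v => R.Adj u₀ v ∧ 0 < m v with hN
    have hNcard : #N ≤ M := by
      have h1 : #N ≤ ∑ v ∈ N, m v := by
        rw [Finset.card_eq_sum_ones]
        exact Finset.sum_le_sum fun v hv => (Finset.mem_filter.mp hv).2.2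
      have h2 : ∑ v ∈ N, m v ≤ ∑ v, m v :=
        Finset.sum_le_sum_of_subset (Finset.subset_univ _)
      omega
    have hpow : ∀ k ≤ M, c ^ M ≤ c ^ k := fun k hk => pow_le_pow_of_le_one hc0.le hc1 hk
    have hlow : ∀ v, β * c ^ M * #(A v) ≤ β * c ^ (M - (n + 1)) * #(A v) := by
      intro v
      apply mul_le_mul_of_nonneg_right _ (Nat.cast_nonneg _)
      exact mul_le_mul_of_nonneg_left (hpow _ (Nat.sub_le _ _)) hβ.le
    have hApos : ∀ v, (0 : ℝ) < #(A v) := by
      intro v
      rcases (Nat.cast_nonneg (α := ℝ) #(A v)).eq_or_lt with h0 | h0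
      · have := hbig v
        rw [← h0] at this
        linarith
      · exact h0
    have hCbig : ∀ v, 0 < m v → (2 : ℝ) ≤ #(C v) := fun v hv =>
      ((hbig v).trans (hlow v)).trans (hC v hv)
    have hDε : ∀ v ∈ N, ε * #(A v) ≤ #(C v) := by
      intro v hv
      refine le_trans ?_ (((hlow v).trans (hC v (Finset.mem_filter.mp hv).2.2)))
      apply mul_le_mul_of_nonneg_right _ (Nat.cast_nonneg _)
      refine le_trans ?_ hM
      have : (0 : ℝ) ≤ M := Nat.cast_nonneg M
      nlinarith
    have hCε : (#N : ℝ) * (ε * #(A u₀)) < #(C u₀) := by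
      have h1 : (#N : ℝ) ≤ M := by exact_mod_cast hNcard
      have h2 : (#N : ℝ) * (ε * #(A u₀)) ≤ M * (ε * #(A u₀)) := by
        apply mul_le_mul_of_nonneg_right h1
        positivity
      rcases hε.eq_or_lt with h0 | h0
      · rw [← h0, zero_mul, mul_zero]
        have := hCbig u₀ hu₀
        linarith
      · have h3 : (M : ℝ) * (ε * #(A u₀)) < ((M : ℝ) + 1) * ε * #(A u₀) := by
          have := mul_pos h0 (hApos u₀)
          linarith
        have h4 : ((M : ℝ) + 1) * ε * #(A u₀) ≤ β * c ^ M * #(A u₀) :=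
          mul_le_mul_of_nonneg_right hM (Nat.cast_nonneg _)
        linarith [hlow u₀, hC u₀ hu₀]
    obtain ⟨x, hx, hxN⟩ := h.step hε u₀ N (fun v hv => (Finset.mem_filter.mp hv).2.1) (C u₀)
      (hCA u₀) C hCA hDε hCε
    set C' : ι → Finset V := fun v => if v = u₀ then (C u₀).erase x else
      if v ∈ N then (C v).filter (G.Adj x) else C v with hC'
    set m' : ι → ℕ := Function.update m u₀ (m u₀ - 1) with hm'
    have hm'0 : m' u₀ = m u₀ - 1 := by simp [hm']
    have hm'1 : ∀ v, v ≠ u₀ → m' v = m v := fun v hv => by simp [hm', Function.update_of_ne hv]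
    have hsum' : ∑ v, m' v = n := by
      have h1 : ∑ v, m' v = m' u₀ + ∑ v ∈ Finset.univ.erase u₀, m' v :=
        (Finset.add_sum_erase _ _ (Finset.mem_univ u₀)).symm
      have h2 : ∑ v, m v = m u₀ + ∑ v ∈ Finset.univ.erase u₀, m v :=
        (Finset.add_sum_erase _ _ (Finset.mem_univ u₀)).symm
      have h3 : ∑ v ∈ Finset.univ.erase u₀, m' v = ∑ v ∈ Finset.univ.erase u₀, m v :=
        Finset.sum_congr rfl fun v hv => hm'1 v (Finset.ne_of_mem_erase hv)
      omega
    have hC'C : ∀ v, C' v ⊆ C v := by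
      intro v
      simp only [hC']
      split_ifs with h1 h2
      · rw [h1]
        exact Finset.erase_subset _ _
      · exact Finset.filter_subset _ _
      · exact Finset.Subset.refl _
    have hC'c : ∀ v, 0 < m v → c * #(C v) ≤ #(C' v) := by
      intro v hv
      simp only [hC']
      split_ifs with h1 h2
      · subst h1
        rw [Finset.card_erase_of_mem hx]
        have h3 := hCbig v hv
        have h4 : 1 ≤ #(C v) := by
          have : (1 : ℝ) ≤ #(C v) := by linarith
          exact_mod_cast this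
        push_cast [h4]
        have h5 : c * #(C v) ≤ 1 / 2 * #(C v) := mul_le_mul_of_nonneg_right hc2 (Nat.cast_nonneg _)
        linarith
      · exact (mul_le_mul_of_nonneg_right hcδ (Nat.cast_nonneg _)).trans (hxN v h2)
      · have h5 : c * #(C v) ≤ 1 * #(C v) := mul_le_mul_of_nonneg_right hc1 (Nat.cast_nonneg _)
        linarith
    obtain ⟨S, hS1, hS2, hS3⟩ := ih m' hsum' (by omega) C' (fun v => (hC'C v).trans (hCA v)) (by
      intro v hv
      have hmv : 0 < m v := by
        by_cases h1 : v = u₀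
        · rw [h1]; exact hu₀
        · rw [hm'1 v h1] at hv; exact hv
      refine le_trans ?_ (hC'c v hmv)
      have h1 := hC v hmv
      have h2 : β * c ^ (M - n) * #(A v) = c * (β * c ^ (M - (n + 1)) * #(A v)) := by
        rw [show M - n = (M - (n + 1)) + 1 by omega, pow_succ]
        ring
      rw [h2]
      exact mul_le_mul_of_nonneg_left h1 hc0.le)
    have hxS : x ∉ S u₀ := by
      intro hx2
      have := hS1 u₀ hx2
      simp [hC'] at this
    refine ⟨Function.update S u₀ (insert x (S u₀)), ?_, ?_, ?_⟩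
    · intro v
      by_cases h1 : v = u₀
      · rw [h1, Function.update_self]
        exact Finset.insert_subset hx ((hS1 u₀).trans (hC'C u₀))
      · rw [Function.update_of_ne h1]
        exact (hS1 v).trans (hC'C v)
    · intro v
      by_cases h1 : v = u₀
      · rw [h1, Function.update_self, Finset.card_insert_of_notMem hxS, hS2, hm'0]
        omega
      · rw [Function.update_of_ne h1, hS2, hm'1 v h1]
    · have key : ∀ v, R.Adj u₀ v → ∀ y ∈ S v, G.Adj x y := by
        intro v hv y hy
        have hne : v ≠ u₀ := fun h => by rw [h] at hv; exact R.irrefl hv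
        have hmv : 0 < m v := by
          rw [← hm'1 v hne, ← hS2 v]
          exact Finset.card_pos.mpr ⟨y, hy⟩
        have hvN : v ∈ N := Finset.mem_filter.mpr ⟨Finset.mem_univ _, hv, hmv⟩
        have := hS1 v hy
        simp only [hC', if_neg hne, if_pos hvN] at this
        exact (Finset.mem_filter.mp this).2
      intro u v huv a ha b hb
      by_cases hu : u = u₀
      · subst hu
        have hne : v ≠ u := fun h => by rw [h] at huv; exact R.irrefl huv
        rw [Function.update_self] at ha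
        rw [Function.update_of_ne hne] at hb
        rcases Finset.mem_insert.mp ha with ha | ha
        · rw [ha]
          exact key v huv b hb
        · exact hS3 u v huv a ha b hb
      · rw [Function.update_of_ne hu] at ha
        by_cases hv : v = u₀
        · subst hv
          rw [Function.update_self] at hb
          rcases Finset.mem_insert.mp hb with hb | hb
          · rw [hb]
            exact (key u huv.symm a ha).symm
          · exact hS3 u v huv a ha b hb
        · rw [Function.update_of_ne hv] at hb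
          exact hS3 u v huv a ha b hb

end Pool.Agent.H.MP_69c6fe_co
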