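import Mathlib
import Pool.Agent.H.MP_69c6fe_co.Tile
import Pool.Agent.H.MP_69c6fe_co.Finite

/-!
# Covering a regular system by tiles and stars
-/

namespace Pool.Agent.H.MP_69c6fe_co

open Finset SimpleGraph

variable {V : Type*} [Fintype V] [DecidableEq V] {ι : Type*} [Fintype ι] [DecidableEq ι]

variable {G : SimpleGraph V} [DecidableRel G.Adj] {A : ι → Finset V} {R : SimpleGraph ι}
  {ε δ : ℝ}

/-- a set of `n` vertices with a large common neighbourhood -/
theorem Sys.starFind (h : Sys G A R ε δ) (hε : 0 ≤ ε) {c : ℝ} (hc0 : 0 < c)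
    (hcδ : c ≤ δ) {u v : ι} (huv : R.Adj u v) (n : ℕ) :
    ∀ D ⊆ A u, ∀ B ⊆ A v, ε * #(A u) + n < #D → ε * #(A v) ≤ c ^ n * #B → c ≤ 1 →
      ∃ T ⊆ D, #T = n ∧ ∃ C ⊆ B, c ^ n * #B ≤ #C ∧ ∀ x ∈ T, ∀ y ∈ C, G.Adj x y := by
  classical
  induction n with
  | zero =>
    intro D _ B _ _ _ _
    refine ⟨∅, Finset.empty_subset _, Finset.card_empty, B, Finset.Subset.refl _, by simp, ?_⟩
    intro x hx
    simp at hx
  | succ n ih =>
    intro D hD B hB h1 h2 hc1
    have hcn : c ^ (n + 1) ≤ 1 := pow_le_one₀ hc0.le hc1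
    obtain ⟨x, hx, hx2⟩ := h.step hε u {v} (by simpa using huv) D hD (fun w => if w = v then B else ∅)
      (by
        intro w
        split_ifs with hw
        · rw [hw]; exact hB
        · exact Finset.empty_subset _)
      (by
        intro w hw
        rw [Finset.mem_singleton] at hw
        subst hw
        simp only [if_true]
        have : c ^ (n + 1) * #B ≤ 1 * #B := mul_le_mul_of_nonneg_right hcn (Nat.cast_nonneg _)
        linarith)
      (by
        rw [Finset.card_singleton]
        push_cast at h1 ⊢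
        have : (0 : ℝ) ≤ n := Nat.cast_nonneg n
        linarith)
    have hx3 := hx2 v (Finset.mem_singleton_self v)
    simp only [if_true] at hx3
    set B' := B.filter (G.Adj x) with hB'
    have hB'c : c * #B ≤ #B' := (mul_le_mul_of_nonneg_right hcδ (Nat.cast_nonneg _)).trans hx3
    have hcn2 : c ^ (n + 1) * #B ≤ c ^ n * #B' := by
      rw [pow_succ, mul_assoc]
      exact mul_le_mul_of_nonneg_left hB'c (by positivity)
    obtain ⟨T, hT, hTn, C, hC, hCn, hTC⟩ := ih (D.erase x) ((Finset.erase_subset _ _).trans hD) B'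
      ((Finset.filter_subset _ _).trans hB) (by
        rw [Finset.card_erase_of_mem hx]
        have h3 : 1 ≤ #D := Finset.card_pos.mpr ⟨x, hx⟩
        push_cast [h3] at h1 ⊢
        linarith) (h2.trans hcn2) hc1
    have hxT : x ∉ T := fun hxT => by simpa using hT hxT
    refine ⟨insert x T, ?_, ?_, C, hC.trans (Finset.filter_subset _ _), hcn2.trans hCn, ?_⟩
    · exact Finset.insert_subset hx (hT.trans (Finset.erase_subset _ _))
    · rw [Finset.card_insert_of_notMem hxT, hTn]
    · intro a ha b hb
      rcases Finset.mem_insert.mp ha with ha | ha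
      · rw [ha]
        exact (Finset.mem_filter.mp (hC hb)).2
      · exact hTC a ha b hb

/-- Covering the remainder by stars: `t - 1` edges per vertex. -/
theorem Sys.baseline (h : Sys G A R ε δ) (hε : 0 ≤ ε) {c β g : ℝ} (hc0 : 0 < c)
    (hcδ : c ≤ δ) (hc1 : c ≤ 1) (hβ : 0 < β) (hnon : ∀ v, ∃ u, R.Adj u v) {t : ℕ} (ht : 1 ≤ t)
    (hεc : ε ≤ c ^ (t - 1) * β) (hg : ∀ v, g ≤ c ^ (t - 1) * β * #(A v)) (J : ℕ) :
    ∀ D B : ι → Finset V, (∀ v, D v ⊆ A v) → (∀ v, B v ⊆ A v) → (∀ v, Disjoint (D v) (B v)) →
      (∀ v, ε * #(A v) + ((t - 1 : ℕ) : ℝ) * J < #(D v) ) → ∑ v, (#(B v) : ℝ) ≤ J * g →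
      Ach G t (Finset.univ.biUnion D ∪ Finset.univ.biUnion B)
        (∑ v, ((t - 1 : ℕ) : ℝ) * (#(B v) - β * #(A v))) := by
  classical
  induction J with
  | zero =>
    intro D B _ _ _ _ hB
    refine (Ach.zero G ht _).mono (Finset.Subset.refl _) ?_
    apply Finset.sum_nonpos
    intro v _
    have h1 : (#(B v) : ℝ) ≤ 0 := by
      have h2 : (#(B v) : ℝ) ≤ ∑ v, (#(B v) : ℝ) :=
        Finset.single_le_sum (f := fun v => (#(B v) : ℝ)) (fun _ _ => Nat.cast_nonneg _)
          (Finset.mem_univ v)
      simp only [Nat.cast_zero, zero_mul] at hB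
      linarith
    have h3 : 0 ≤ β * #(A v) := by positivity
    exact mul_nonpos_of_nonneg_of_nonpos (Nat.cast_nonneg _) (by linarith)
  | succ J ih =>
    intro D B hD hB hDB hDc hBs
    by_cases hall : ∀ v, (#(B v) : ℝ) ≤ β * #(A v)
    · refine (Ach.zero G ht _).mono (Finset.Subset.refl _) ?_
      apply Finset.sum_nonpos
      intro v _
      exact mul_nonpos_of_nonneg_of_nonpos (Nat.cast_nonneg _) (by linarith [hall v])
    · push Not at hall
      obtain ⟨v, hv⟩ := hall
      obtain ⟨u, huv⟩ := hnon v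
      have hne : u ≠ v := fun h => by rw [h] at huv; exact R.irrefl huv
      have hcp : 0 < c ^ (t - 1) := by positivity
      obtain ⟨T, hT, hTn, C, hC, hCn, hTC⟩ := h.starFind hε hc0 hcδ huv (t - 1) (D u) (hD u)
        (B v) (hB v) (by
          have h1 := hDc u
          push_cast at h1
          have h2 : (0 : ℝ) ≤ ((t - 1 : ℕ) : ℝ) * J := by positivity
          linarith) (by
          have h1 : ε * #(A v) ≤ c ^ (t - 1) * β * #(A v) :=
            mul_le_mul_of_nonneg_right hεc (Nat.cast_nonneg _)
          have h2 : c ^ (t - 1) * (β * #(A v)) ≤ c ^ (t - 1) * #(B v) :=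
            mul_le_mul_of_nonneg_left hv.le hcp.le
          linarith) hc1
      have hCg : g ≤ #C := by
        have h2 : c ^ (t - 1) * (β * #(A v)) ≤ c ^ (t - 1) * #(B v) :=
          mul_le_mul_of_nonneg_left hv.le hcp.le
        linarith [hg v]
      set D' : ι → Finset V := Function.update D u (D u \ T) with hD'
      set B' : ι → Finset V := Function.update B v (B v \ C) with hB'
      have hD'D : ∀ w, D' w ⊆ D w := by
        intro w
        by_cases hw : w = u
        · subst hw
          rw [hD', Function.update_self]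
          exact Finset.sdiff_subset
        · rw [hD', Function.update_of_ne hw]
      have hB'B : ∀ w, B' w ⊆ B w := by
        intro w
        by_cases hw : w = v
        · subst hw
          rw [hB', Function.update_self]
          exact Finset.sdiff_subset
        · rw [hB', Function.update_of_ne hw]
      have hB'v : (#(B' v) : ℝ) = #(B v) - #C := by
        rw [hB', Function.update_self, Finset.card_sdiff_of_subset hC,
          Nat.cast_sub (Finset.card_le_card hC)]
      have hB'w : ∀ w, w ≠ v → (#(B' w) : ℝ) = #(B w) := by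
        intro w hw
        rw [hB', Function.update_of_ne hw]
      have hsplit : ∀ F : ι → ℝ, ∑ w, F w = F v + ∑ w ∈ Finset.univ.erase v, F w := fun F =>
        (Finset.add_sum_erase _ _ (Finset.mem_univ v)).symm
      have hsumB : ∑ w, (#(B' w) : ℝ) = ∑ w, (#(B w) : ℝ) - #C := by
        rw [hsplit, hsplit, hB'v, Finset.sum_congr rfl fun w hw =>
          hB'w w (Finset.ne_of_mem_erase hw)]
        ring
      have h1 := ih D' B' (fun w => (hD'D w).trans (hD w)) (fun w => (hB'B w).trans (hB w))
        (fun w => Finset.disjoint_of_subset_left (hD'D w)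
          (Finset.disjoint_of_subset_right (hB'B w) (hDB w)))
        (by
          intro w
          by_cases hw : w = u
          · subst hw
            rw [hD', Function.update_self, Finset.card_sdiff_of_subset hT,
              Nat.cast_sub (Finset.card_le_card hT), hTn]
            have := hDc w
            push_cast at this ⊢
            linarith
          · rw [hD', Function.update_of_ne hw]
            have := hDc w
            push_cast at this ⊢
            have h2 : (0 : ℝ) ≤ ((t - 1 : ℕ) : ℝ) := Nat.cast_nonneg _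
            linarith)
        (by
          rw [hsumB]
          push_cast at hBs ⊢
          linarith)
      have hAuv : Disjoint (A u) (A v) := h.disj u v hne
      have hdTC : Disjoint T C :=
        Finset.disjoint_of_subset_left (hT.trans (hD u))
          (Finset.disjoint_of_subset_right (hC.trans (hB v)) hAuv)
      have h2 := Ach.star G (t := t) T C (by rw [hTn]; omega) hdTC hTC
      have h3 : Disjoint (T ∪ C) (Finset.univ.biUnion D' ∪ Finset.univ.biUnion B') := by
        rw [Finset.disjoint_left]
        intro a ha ha2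
        have hmem : ∀ w, (a ∈ D' w ∨ a ∈ B' w) → False := by
          intro w hw
          rcases Finset.mem_union.mp ha with ha | ha
          · -- `a ∈ T ⊆ D u`
            have haAu : a ∈ A u := hD u (hT ha)
            by_cases hwu : w = u
            · subst hwu
              rcases hw with hw | hw
              · rw [hD', Function.update_self] at hw
                exact (Finset.mem_sdiff.mp hw).2 ha
              · exact (Finset.disjoint_left.mp (hDB w)) (hT ha) (hB'B w hw)
            · have haAw : a ∈ A w := by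
                rcases hw with hw | hw
                · exact hD w (hD'D w hw)
                · exact hB w (hB'B w hw)
              exact (Finset.disjoint_left.mp (h.disj w u hwu)) haAw haAu
          · have haAv : a ∈ A v := hB v (hC ha)
            by_cases hwv : w = v
            · subst hwv
              rcases hw with hw | hw
              · exact (Finset.disjoint_left.mp (hDB w)) (hD'D w hw) (hC ha)
              · rw [hB', Function.update_self] at hw
                exact (Finset.mem_sdiff.mp hw).2 ha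
            · have haAw : a ∈ A w := by
                rcases hw with hw | hw
                · exact hD w (hD'D w hw)
                · exact hB w (hB'B w hw)
              exact (Finset.disjoint_left.mp (h.disj w v hwv)) haAw haAv
        rcases Finset.mem_union.mp ha2 with ha2 | ha2
        · obtain ⟨w, _, hw⟩ := Finset.mem_biUnion.mp ha2
          exact hmem w (Or.inl hw)
        · obtain ⟨w, _, hw⟩ := Finset.mem_biUnion.mp ha2
          exact hmem w (Or.inr hw)
      refine (h2.union h1 h3).mono ?_ (le_of_eq ?_)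
      · intro a ha
        have hD1 : ∀ w, ∀ a ∈ D w, a ∈ Finset.univ.biUnion D ∪ Finset.univ.biUnion B :=
          fun w a ha => Finset.mem_union_left _ (Finset.mem_biUnion.mpr ⟨w, Finset.mem_univ _, ha⟩)
        have hB1 : ∀ w, ∀ a ∈ B w, a ∈ Finset.univ.biUnion D ∪ Finset.univ.biUnion B :=
          fun w a ha => Finset.mem_union_right _ (Finset.mem_biUnion.mpr ⟨w, Finset.mem_univ _, ha⟩)
        rcases Finset.mem_union.mp ha with ha | ha
        · rcases Finset.mem_union.mp ha with ha | ha
          · exact hD1 u a (hT ha)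
          · exact hB1 v a (hC ha)
        · rcases Finset.mem_union.mp ha with ha | ha
          · obtain ⟨w, _, hw⟩ := Finset.mem_biUnion.mp ha
            exact hD1 w a (hD'D w hw)
          · obtain ⟨w, _, hw⟩ := Finset.mem_biUnion.mp ha
            exact hB1 w a (hB'B w hw)
      · have hrest : ∑ w ∈ Finset.univ.erase v, ((t - 1 : ℕ) : ℝ) * (#(B' w) - β * #(A w)) =
            ∑ w ∈ Finset.univ.erase v, ((t - 1 : ℕ) : ℝ) * (#(B w) - β * #(A w)) :=
          Finset.sum_congr rfl fun w hw => by rw [hB'w w (Finset.ne_of_mem_erase hw)]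
        rw [hTn, hsplit (fun w => ((t - 1 : ℕ) : ℝ) * (#(B w) - β * #(A w))),
          hsplit (fun w => ((t - 1 : ℕ) : ℝ) * (#(B' w) - β * #(A w))), hB'v, hrest]
        ring

/-- the value of one tile -/
theorem tileAch (G : SimpleGraph V) {A : ι → Finset V} (hdisj : ∀ u v, u ≠ v → Disjoint (A u) (A v))
    (R : SimpleGraph ι) [DecidableRel R.Adj] {t : ℕ} (ht : 1 ≤ t) (m : ι → ℕ)
    (hm : ∑ v, m v = 2 * t) (S : ι → Finset V) (hSA : ∀ v, S v ⊆ A v) (hS : ∀ v, #(S v) = m v)
    (hG : ∀ u v, R.Adj u v → ∀ x ∈ S u, ∀ y ∈ S v, G.Adj x y) :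
    Ach G t (Finset.univ.biUnion S) (DD R (fun v => (m v : ℝ)) / 2) := by
  classical
  have hSd : ∀ u v, u ≠ v → Disjoint (S u) (S v) := fun u v huv =>
    Finset.disjoint_of_subset_left (hSA u) (Finset.disjoint_of_subset_right (hSA v) (hdisj u v huv))
  have hcard : #(Finset.univ.biUnion S) = 2 * t := by
    rw [Finset.card_biUnion (fun u _ v _ huv => hSd u v huv), ← hm]
    exact Finset.sum_congr rfl fun v _ => hS v
  set H : SimpleGraph V :=
    { Adj := fun x y => ∃ u v, R.Adj u v ∧ x ∈ S u ∧ y ∈ S v
      symm := ⟨fun x y h => by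
        obtain ⟨u, v, h1, h2, h3⟩ := h
        exact ⟨v, u, h1.symm, h3, h2⟩⟩
      loopless := ⟨fun x h => by
        obtain ⟨u, v, h1, h2, h3⟩ := h
        exact G.irrefl (hG u v h1 x h2 x h3)⟩ } with hH
  have hHG : H ≤ G := by
    intro x y h
    obtain ⟨u, v, h1, h2, h3⟩ := h
    exact hG u v h1 x h2 y h3
  have h1 := Ach.tile G ht (Finset.univ.biUnion S) hcard.le H hHG (by
    intro x y h
    obtain ⟨u, v, h1, h2, h3⟩ := h
    exact ⟨Finset.mem_biUnion.mpr ⟨u, Finset.mem_univ _, h2⟩,
      Finset.mem_biUnion.mpr ⟨v, Finset.mem_univ _, h3⟩⟩)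
  refine h1.mono (Finset.Subset.refl _) ?_
  have h2 : (2 : ℝ) * H.edgeSet.ncard = #(Finset.univ.filter fun p : V × V => H.Adj p.1 p.2) := by
    have h3 := two_mul_card_edgeFinset H
    rw [← coe_edgeFinset, Set.ncard_coe_finset]
    exact_mod_cast h3
  have h3 : DD R (fun v => (m v : ℝ)) ≤
      #(Finset.univ.filter fun p : V × V => H.Adj p.1 p.2) := by
    have h4 : DD R (fun v => (m v : ℝ)) =
        ∑ q ∈ (Finset.univ : Finset (ι × ι)).filter (fun q => R.Adj q.1 q.2),
          ((#(S q.1 ×ˢ S q.2) : ℕ) : ℝ) := by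
      unfold DD
      rw [Finset.sum_filter, ← Finset.univ_product_univ, Finset.sum_product]
      refine Finset.sum_congr rfl fun u _ => Finset.sum_congr rfl fun v _ => ?_
      simp only [Finset.card_product, hS]
      push_cast
      rfl
    rw [h4, ← Nat.cast_sum, ← Finset.card_biUnion]
    · rw [Nat.cast_le]
      apply Finset.card_le_card
      intro p hp
      obtain ⟨q, hq, hp⟩ := Finset.mem_biUnion.mp hp
      have hp := Finset.mem_product.mp hp
      exact Finset.mem_filter.mpr ⟨Finset.mem_univ _, q.1, q.2, (Finset.mem_filter.mp hq).2,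
        hp.1, hp.2⟩
    · intro q _ q' _ hqq
      rw [Function.onFun, Finset.disjoint_left]
      intro p hp hp'
      have hp := Finset.mem_product.mp hp
      have hp' := Finset.mem_product.mp hp'
      apply hqq
      have e1 : q.1 = q'.1 := by
        by_contra hne
        exact Finset.disjoint_left.mp (hSd _ _ hne) hp.1 hp'.1
      have e2 : q.2 = q'.2 := by
        by_contra hne
        exact Finset.disjoint_left.mp (hSd _ _ hne) hp.2 hp'.2
      exact Prod.ext e1 e2
  linarith

/-- Many disjoint tiles with prescribed multiplicities. -/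
theorem Sys.tiles (h : Sys G A R ε δ) [DecidableRel R.Adj] (hε : 0 ≤ ε) {c β : ℝ} (hc0 : 0 < c)
    (hcδ : c ≤ δ) (hc2 : c ≤ 1 / 2) (hβ : 0 < β) {t : ℕ} (ht : 1 ≤ t)
    (hM : (((2 * t : ℕ) : ℝ) + 1) * ε ≤ β * c ^ (2 * t))
    (hbig : ∀ v, 2 ≤ β * c ^ (2 * t) * #(A v)) (n : ℕ) :
    ∀ N : (ι → ℕ) → ℕ, ∑ m ∈ Finset.piAntidiag Finset.univ (2 * t), N m = n →
      ∀ B : ι → Finset V, (∀ v, B v ⊆ A v) →
      (∀ v, (∑ m ∈ Finset.piAntidiag Finset.univ (2 * t), (N m : ℝ) * (m v : ℝ)) +
        β * #(A v) ≤ #(B v)) →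
      ∃ B' : ι → Finset V, (∀ v, B' v ⊆ B v) ∧
        (∀ v, (#(B' v) : ℝ) = #(B v) -
          ∑ m ∈ Finset.piAntidiag Finset.univ (2 * t), (N m : ℝ) * (m v : ℝ)) ∧
        Ach G t (Finset.univ.biUnion fun v => B v \ B' v)
          (∑ m ∈ Finset.piAntidiag Finset.univ (2 * t),
            (N m : ℝ) * (DD R (fun v => (m v : ℝ)) / 2)) := by
  classical
  have hc1 : c ≤ 1 := hc2.trans (by norm_num)
  induction n with
  | zero =>
    intro N hN B hB _
    have h0 : ∀ m ∈ Finset.piAntidiag (Finset.univ : Finset ι) (2 * t), N m = 0 :=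
      Finset.sum_eq_zero_iff.mp hN
    refine ⟨B, fun v => Finset.Subset.refl _, ?_, ?_⟩
    · intro v
      rw [Finset.sum_eq_zero (fun m hm => by rw [h0 m hm]; simp)]
      ring
    · refine (Ach.zero G ht _).mono (Finset.Subset.refl _) (le_of_eq ?_)
      exact Finset.sum_eq_zero (fun m hm => by rw [h0 m hm]; simp)
  | succ n ih =>
    intro N hN B hB hBN
    have hex : ∃ m₀ ∈ Finset.piAntidiag (Finset.univ : Finset ι) (2 * t), 0 < N m₀ := by
      by_contra hcon
      push Not at hcon
      have : ∑ m ∈ Finset.piAntidiag (Finset.univ : Finset ι) (2 * t), N m = 0 :=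
        Finset.sum_eq_zero fun m hm => by have := hcon m hm; omega
      omega
    obtain ⟨m₀, hm₀, hNm₀⟩ := hex
    have hm₀sum : ∑ v, m₀ v = 2 * t := by
      have := (Finset.mem_piAntidiag.mp hm₀).1
      simpa using this
    obtain ⟨S, hS1, hS2, hS3⟩ := h.tile hε hc0 hcδ hc2 hβ (2 * t) hM hbig (2 * t) m₀ hm₀sum le_rfl
      B hB (by
        intro v _
        rw [Nat.sub_self, pow_zero, mul_one]
        refine le_trans ?_ (hBN v)
        have : 0 ≤ ∑ m ∈ Finset.piAntidiag (Finset.univ : Finset ι) (2 * t),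
            (N m : ℝ) * (m v : ℝ) := by positivity
        linarith)
    set N' : (ι → ℕ) → ℕ := Function.update N m₀ (N m₀ - 1) with hN'
    have hN'0 : (N' m₀ : ℝ) = N m₀ - 1 := by
      rw [hN', Function.update_self, Nat.cast_sub (by omega)]
      simp
    have hN'1 : ∀ m, m ≠ m₀ → N' m = N m := fun m hm => by simp [hN', Function.update_of_ne hm]
    have hsplit : ∀ F : (ι → ℕ) → ℝ, ∑ m ∈ Finset.piAntidiag (Finset.univ : Finset ι) (2 * t), F m =
        F m₀ + ∑ m ∈ (Finset.piAntidiag (Finset.univ : Finset ι) (2 * t)).erase m₀, F m := fun F =>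
      (Finset.add_sum_erase _ _ hm₀).symm
    have hsumF : ∀ F : (ι → ℕ) → ℝ,
        ∑ m ∈ Finset.piAntidiag (Finset.univ : Finset ι) (2 * t), (N m : ℝ) * F m =
        F m₀ + ∑ m ∈ Finset.piAntidiag (Finset.univ : Finset ι) (2 * t), (N' m : ℝ) * F m := by
      intro F
      rw [hsplit, hsplit (fun m => (N' m : ℝ) * F m), hN'0,
        Finset.sum_congr rfl fun m hm => by rw [← hN'1 m (Finset.ne_of_mem_erase hm)]]
      ring
    have hsumN : ∑ m ∈ Finset.piAntidiag (Finset.univ : Finset ι) (2 * t), N' m = n := by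
      have h1 := hsumF (fun _ => 1)
      simp only [mul_one] at h1
      have h2 : ((∑ m ∈ Finset.piAntidiag (Finset.univ : Finset ι) (2 * t), N m : ℕ) : ℝ) =
          1 + ((∑ m ∈ Finset.piAntidiag (Finset.univ : Finset ι) (2 * t), N' m : ℕ) : ℝ) := by
        push_cast
        exact h1
      rw [hN] at h2
      have h3 : (n + 1 : ℕ) = 1 + ∑ m ∈ Finset.piAntidiag (Finset.univ : Finset ι) (2 * t), N' m := by
        exact_mod_cast h2
      omega
    have hBS : ∀ v, (#(B v \ S v) : ℝ) = #(B v) - m₀ v := by
      intro v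
      rw [Finset.card_sdiff_of_subset (hS1 v), Nat.cast_sub (Finset.card_le_card (hS1 v)), hS2]
    obtain ⟨B', hB'1, hB'2, hB'3⟩ := ih N' hsumN (fun v => B v \ S v)
      (fun v => Finset.sdiff_subset.trans (hB v)) (by
        intro v
        have h1 := hBN v
        rw [hsumF (fun m => (m v : ℝ))] at h1
        rw [hBS v]
        linarith)
    refine ⟨B', fun v => (hB'1 v).trans Finset.sdiff_subset, ?_, ?_⟩
    · intro v
      rw [hB'2 v, hBS v, hsumF (fun m => (m v : ℝ))]
      ring
    · have h1 := tileAch G h.disj R ht m₀ hm₀sum S (fun v => (hS1 v).trans (hB v)) hS2 hS3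
      have h2 : Disjoint (Finset.univ.biUnion S)
          (Finset.univ.biUnion fun v => (B v \ S v) \ B' v) := by
        rw [Finset.disjoint_left]
        intro a ha ha2
        obtain ⟨u, _, hu⟩ := Finset.mem_biUnion.mp ha
        obtain ⟨w, _, hw⟩ := Finset.mem_biUnion.mp ha2
        have hw1 := Finset.mem_sdiff.mp (Finset.mem_sdiff.mp hw).1
        by_cases huw : u = w
        · subst huw
          exact hw1.2 hu
        · exact Finset.disjoint_left.mp (h.disj u w huw) (hB u (hS1 u hu)) (hB w hw1.1)
      refine (h1.union hB'3 h2).mono ?_ (le_of_eq ?_)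
      · intro a ha
        rw [Finset.mem_biUnion]
        rcases Finset.mem_union.mp ha with ha | ha
        · obtain ⟨u, _, hu⟩ := Finset.mem_biUnion.mp ha
          refine ⟨u, Finset.mem_univ _, Finset.mem_sdiff.mpr ⟨hS1 u hu, ?_⟩⟩
          intro h3
          exact (Finset.mem_sdiff.mp (hB'1 u h3)).2 hu
        · obtain ⟨w, _, hw⟩ := Finset.mem_biUnion.mp ha
          have hw1 := Finset.mem_sdiff.mp hw
          exact ⟨w, Finset.mem_univ _, Finset.mem_sdiff.mpr ⟨(Finset.mem_sdiff.mp hw1.1).1, hw1.2⟩⟩
      · exact hsumF (fun m => DD R (fun v => (m v : ℝ)) / 2)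

end Pool.Agent.H.MP_69c6fe_co
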