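import Mathlib
import Pool.Agent.H.MP_69c6fe_co.Cover

/-!
# The path-free subgraph of a regular system
-/

namespace Pool.Agent.H.MP_69c6fe_co

open Finset SimpleGraph

variable {V : Type*} [Fintype V] [DecidableEq V] {ι : Type*} [Fintype ι] [DecidableEq ι]

theorem DD_smul (R : SimpleGraph ι) [DecidableRel R.Adj] (r : ℝ) (s : ι → ℝ) :
    DD R (fun v => r * s v) = r ^ 2 * DD R s := by
  unfold DD
  rw [Finset.mul_sum]
  refine Finset.sum_congr rfl fun u _ => ?_
  rw [Finset.mul_sum]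
  refine Finset.sum_congr rfl fun v _ => ?_
  split_ifs
  · ring
  · ring

theorem DD_nonneg (R : SimpleGraph ι) [DecidableRel R.Adj] (s : ι → ℝ) (hs : ∀ v, 0 ≤ s v) :
    0 ≤ DD R s := by
  unfold DD
  refine Finset.sum_nonneg fun u _ => Finset.sum_nonneg fun v _ => ?_
  split_ifs
  · exact mul_nonneg (hs u) (hs v)
  · exact le_rfl

theorem gain_le (R : SimpleGraph ι) [DecidableRel R.Adj] (t : ℕ) (m : ι → ℕ)
    (hm : ∑ v, m v = 2 * t) :
    DD R (fun v => (m v : ℝ)) / 2 - 2 * t * (t - 1) ≤ t := by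
  have h1 : DD R (fun v => (m v : ℝ)) ≤ ∑ u, ∑ v, (if u = v then 0 else (m u : ℝ) * m v) := by
    unfold DD
    refine Finset.sum_le_sum fun u _ => Finset.sum_le_sum fun v _ => ?_
    by_cases h : R.Adj u v
    · rw [if_pos h, if_neg (R.ne_of_adj h)]
    · rw [if_neg h]
      split_ifs
      · exact le_rfl
      · positivity
  have h2 : ∑ u, ∑ v, (if u = v then 0 else (m u : ℝ) * m v) =
      (∑ u, (m u : ℝ)) ^ 2 - ∑ u, (m u : ℝ) ^ 2 := by
    rw [sq, Finset.sum_mul_sum, ← Finset.sum_sub_distrib]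
    refine Finset.sum_congr rfl fun u _ => ?_
    have h3 : ∑ v, (if u = v then 0 else (m u : ℝ) * m v) =
        ∑ v, ((m u : ℝ) * m v - if u = v then (m u : ℝ) ^ 2 else 0) := by
      refine Finset.sum_congr rfl fun v _ => ?_
      split_ifs with h
      · rw [h]; ring
      · ring
    rw [h3, Finset.sum_sub_distrib, Finset.sum_ite_eq, if_pos (Finset.mem_univ u)]
  have h3 : ∑ u, (m u : ℝ) = 2 * t := by exact_mod_cast hm
  have h4 : ∑ u, (m u : ℝ) ≤ ∑ u, (m u : ℝ) ^ 2 := by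
    refine Finset.sum_le_sum fun u _ => ?_
    have : m u ≤ m u ^ 2 := by
      rcases Nat.eq_zero_or_pos (m u) with h | h
      · rw [h]; simp
      · nlinarith
    exact_mod_cast this
  rw [h2, h3] at h1
  rw [h3] at h4
  nlinarith

theorem Sys.main {G : SimpleGraph V} [DecidableRel G.Adj] {A : ι → Finset V} {R : SimpleGraph ι}
    [DecidableRel R.Adj] {ε δ : ℝ} (h : Sys G A R ε δ) (hnon : ∀ v, ∃ u, R.Adj u v)
    (hε : 0 ≤ ε) {c β : ℝ} (hc0 : 0 < c) (hcδ : c ≤ δ) (hc2 : c ≤ 1 / 2) (hβ : 0 < β)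
    (hβ4 : β ≤ 1 / 4) {t : ℕ} (ht : 2 ≤ t)
    (hM : (((2 * t : ℕ) : ℝ) + 1) * ε ≤ β * c ^ (2 * t)) {a : ℝ} (J : ℕ)
    (ha1 : ∀ v, a ≤ #(A v)) (ha2 : 2 ≤ β * c ^ (2 * t) * a) (haJ : ((t - 1 : ℕ) : ℝ) * J ≤ β * a)
    (hJ : ∑ v, (#(A v) : ℝ) ≤ J * (c ^ (t - 1) * β * a)) :
    Ach G t Finset.univ ((1 - 4 * β) * Real.sqrt ((t : ℝ) * (t - 1) * DD R (fun v => (#(A v) : ℝ))) -
      1 - #(Finset.piAntidiag (Finset.univ : Finset ι) (2 * t)) * t) := by
  classical
  have hc1 : c ≤ 1 := hc2.trans (by norm_num)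
  have ht1 : 1 ≤ t := by omega
  have hcM : 0 < c ^ (2 * t) := by positivity
  have hcM1 : c ^ (2 * t) ≤ 1 := pow_le_one₀ hc0.le hc1
  have ha0 : 0 < a := by
    by_contra hcon
    push Not at hcon
    have : β * c ^ (2 * t) * a ≤ 0 := mul_nonpos_of_nonneg_of_nonpos (by positivity) hcon
    linarith
  have hβa : 1 ≤ β * a := by
    have h1 : β * c ^ (2 * t) * a ≤ β * 1 * a := by
      apply mul_le_mul_of_nonneg_right _ ha0.le
      exact mul_le_mul_of_nonneg_left hcM1 hβ.le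
    linarith
  have hβA : ∀ v, 1 ≤ β * #(A v) := fun v =>
    hβa.trans (mul_le_mul_of_nonneg_left (ha1 v) hβ.le)
  have hεβ : ε ≤ β / 5 := by
    have h1 : (5 : ℝ) ≤ ((2 * t : ℕ) : ℝ) + 1 := by
      push_cast
      have : (2 : ℝ) ≤ t := by exact_mod_cast ht
      linarith
    have h2 : 5 * ε ≤ (((2 * t : ℕ) : ℝ) + 1) * ε := mul_le_mul_of_nonneg_right h1 hε
    have h3 : β * c ^ (2 * t) ≤ β * 1 := mul_le_mul_of_nonneg_left hcM1 hβ.le
    linarith
  -- the reserve
  have hD : ∀ v, ∃ D ⊆ A v, #D = ⌈2 * β * #(A v)⌉₊ := by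
    intro v
    apply Finset.exists_subset_card_eq
    rw [Nat.ceil_le]
    have : 2 * β * #(A v) ≤ 1 * #(A v) :=
      mul_le_mul_of_nonneg_right (by linarith) (Nat.cast_nonneg _)
    linarith
  choose D hDA hDc using hD
  have hD1 : ∀ v, 2 * β * #(A v) ≤ #(D v) := fun v => by
    rw [hDc]
    exact Nat.le_ceil _
  have hD2 : ∀ v, (#(D v) : ℝ) ≤ 3 * β * #(A v) := fun v => by
    rw [hDc]
    have := (Nat.ceil_lt_add_one (a := 2 * β * #(A v)) (by positivity)).le
    linarith [hβA v]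
  set B : ι → Finset V := fun v => A v \ D v with hB
  have hBc : ∀ v, (#(B v) : ℝ) = #(A v) - #(D v) := fun v => by
    rw [hB]
    simp only
    rw [Finset.card_sdiff_of_subset (hDA v), Nat.cast_sub (Finset.card_le_card (hDA v))]
  -- the packing
  set s : ι → ℝ := fun v => (1 - 4 * β) * #(A v) with hs
  have hs0 : ∀ v, 0 ≤ s v := fun v => mul_nonneg (by linarith) (Nat.cast_nonneg _)
  obtain ⟨w, hw0, hw1, hw2⟩ := exists_packing R ht s hs0 (η := 1) one_pos
  set N : (ι → ℕ) → ℕ := fun m => ⌊w m⌋₊ with hN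
  have hNw : ∀ m, (N m : ℝ) ≤ w m := fun m => Nat.floor_le (hw0 m)
  have hNw2 : ∀ m, w m - 1 ≤ (N m : ℝ) := fun m => by
    have := Nat.lt_floor_add_one (w m)
    simp only [hN]
    linarith
  have huse : ∀ v, (∑ m ∈ Finset.piAntidiag Finset.univ (2 * t), (N m : ℝ) * (m v : ℝ)) ≤ s v :=
    fun v => (Finset.sum_le_sum fun m _ =>
      mul_le_mul_of_nonneg_right (hNw m) (Nat.cast_nonneg _)).trans (hw1 v)
  obtain ⟨B', hB'B, hB'c, hAch1⟩ := h.tiles hε hc0 hcδ hc2 hβ ht1 hM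
    (fun v => ha2.trans (mul_le_mul_of_nonneg_left (ha1 v) (by positivity)))
    (∑ m ∈ Finset.piAntidiag Finset.univ (2 * t), N m) N rfl B (fun v => Finset.sdiff_subset)
    (by
      intro v
      have h1 := huse v
      have h2 := hD2 v
      rw [hBc v]
      simp only [hs] at h1
      linarith)
  have hεc : ε ≤ c ^ (t - 1) * β := by
    have h1 : c ^ (2 * t) ≤ c ^ (t - 1) := pow_le_pow_of_le_one hc0.le hc1 (by omega)
    have h2 : ε ≤ (((2 * t : ℕ) : ℝ) + 1) * ε := by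
      have : (0 : ℝ) ≤ ((2 * t : ℕ) : ℝ) := Nat.cast_nonneg _
      nlinarith
    have h3 : β * c ^ (2 * t) ≤ β * c ^ (t - 1) := mul_le_mul_of_nonneg_left h1 hβ.le
    linarith
  have hAch2 := h.baseline hε hc0 hcδ hc1 hβ hnon ht1 hεc (g := c ^ (t - 1) * β * a)
    (fun v => mul_le_mul_of_nonneg_left (ha1 v) (by positivity)) J D B' hDA
    (fun v => (hB'B v).trans Finset.sdiff_subset)
    (fun v => Finset.disjoint_of_subset_right (hB'B v) Finset.disjoint_sdiff)
    (by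
      intro v
      have h1 := hD1 v
      have h2 : β * a ≤ β * #(A v) := mul_le_mul_of_nonneg_left (ha1 v) hβ.le
      have h3 : ε * #(A v) ≤ β / 5 * #(A v) := mul_le_mul_of_nonneg_right hεβ (Nat.cast_nonneg _)
      have h4 := hβA v
      linarith)
    (by
      refine le_trans ?_ hJ
      refine Finset.sum_le_sum fun v _ => ?_
      have : B' v ⊆ A v := (hB'B v).trans Finset.sdiff_subset
      exact_mod_cast Finset.card_le_card this)
  have hdis : Disjoint (Finset.univ.biUnion fun v => B v \ B' v)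
      (Finset.univ.biUnion D ∪ Finset.univ.biUnion B') := by
    rw [Finset.disjoint_left]
    intro x hx hx2
    obtain ⟨v, _, hv⟩ := Finset.mem_biUnion.mp hx
    have hv1 := Finset.mem_sdiff.mp hv
    have hv2 := Finset.mem_sdiff.mp hv1.1
    rcases Finset.mem_union.mp hx2 with hx2 | hx2
    · obtain ⟨u, _, hu⟩ := Finset.mem_biUnion.mp hx2
      by_cases huv : u = v
      · rw [huv] at hu
        exact hv2.2 hu
      · exact Finset.disjoint_left.mp (h.disj u v huv) (hDA u hu) hv2.1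
    · obtain ⟨u, _, hu⟩ := Finset.mem_biUnion.mp hx2
      by_cases huv : u = v
      · rw [huv] at hu
        exact hv1.2 hu
      · exact Finset.disjoint_left.mp (h.disj u v huv)
          ((Finset.mem_sdiff.mp (hB'B u hu)).1) hv2.1
  refine (hAch1.union hAch2 hdis).mono (Finset.subset_univ _) ?_
  -- the value
  have hDDs : Real.sqrt ((t : ℝ) * (t - 1) * DD R s) =
      (1 - 4 * β) * Real.sqrt ((t : ℝ) * (t - 1) * DD R (fun v => (#(A v) : ℝ))) := by
    rw [hs, DD_smul, show (t : ℝ) * (t - 1) * ((1 - 4 * β) ^ 2 * DD R fun v => (#(A v) : ℝ)) =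
      (1 - 4 * β) ^ 2 * ((t : ℝ) * (t - 1) * DD R fun v => (#(A v) : ℝ)) by ring,
      Real.sqrt_mul (sq_nonneg _), Real.sqrt_sq (by linarith)]
  rw [← hDDs]
  have ht1r : (1 : ℝ) ≤ t := by exact_mod_cast ht1
  have hcast : ((t - 1 : ℕ) : ℝ) = (t : ℝ) - 1 := by rw [Nat.cast_sub ht1]; simp
  have hval1 : ∑ v, ((t - 1 : ℕ) : ℝ) * (#(B' v) - β * #(A v)) ≥
      ((t : ℝ) - 1) * ∑ v, s v - ∑ m ∈ Finset.piAntidiag (Finset.univ : Finset ι) (2 * t),
        (N m : ℝ) * (2 * t * (t - 1)) := by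
    have e1 : ∑ m ∈ Finset.piAntidiag (Finset.univ : Finset ι) (2 * t),
        (N m : ℝ) * (2 * t * (t - 1)) = ((t : ℝ) - 1) *
        ∑ v, ∑ m ∈ Finset.piAntidiag (Finset.univ : Finset ι) (2 * t), (N m : ℝ) * (m v : ℝ) := by
      rw [Finset.sum_comm, Finset.mul_sum]
      refine Finset.sum_congr rfl fun m hm => ?_
      have h1 : ∑ v, (m v : ℝ) = 2 * t := by
        have := (Finset.mem_piAntidiag.mp hm).1
        exact_mod_cast this
      rw [← Finset.mul_sum, h1]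
      ring
    rw [e1, ← mul_sub, ← Finset.sum_sub_distrib, ← Finset.mul_sum, hcast]
    apply mul_le_mul_of_nonneg_left _ (by linarith)
    refine Finset.sum_le_sum fun v _ => ?_
    rw [hB'c v, hBc v]
    simp only [hs]
    linarith [hD2 v]
  have hval2 : ∑ m ∈ Finset.piAntidiag (Finset.univ : Finset ι) (2 * t),
      w m * (DD R (fun v => (m v : ℝ)) / 2 - 2 * t * (t - 1)) -
      #(Finset.piAntidiag (Finset.univ : Finset ι) (2 * t)) * t ≤
      ∑ m ∈ Finset.piAntidiag (Finset.univ : Finset ι) (2 * t),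
        (N m : ℝ) * (DD R (fun v => (m v : ℝ)) / 2 - 2 * t * (t - 1)) := by
    have e1 : (#(Finset.piAntidiag (Finset.univ : Finset ι) (2 * t)) : ℝ) * t =
        ∑ m ∈ Finset.piAntidiag (Finset.univ : Finset ι) (2 * t), (t : ℝ) := by
      rw [Finset.sum_const, nsmul_eq_mul]
    rw [e1, ← Finset.sum_sub_distrib]
    refine Finset.sum_le_sum fun m hm => ?_
    have hsum : ∑ v, m v = 2 * t := by simpa using (Finset.mem_piAntidiag.mp hm).1
    have hg := gain_le R t m hsum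
    set g := DD R (fun v => (m v : ℝ)) / 2 - 2 * t * (t - 1) with hg'
    have h1 := hNw m
    have h2 := hNw2 m
    rcases le_or_gt g 0 with h0 | h0
    · nlinarith
    · nlinarith
  have hval3 : ∑ m ∈ Finset.piAntidiag (Finset.univ : Finset ι) (2 * t),
        (N m : ℝ) * (DD R (fun v => (m v : ℝ)) / 2 - 2 * t * (t - 1)) =
      ∑ m ∈ Finset.piAntidiag (Finset.univ : Finset ι) (2 * t),
        (N m : ℝ) * (DD R (fun v => (m v : ℝ)) / 2) -
      ∑ m ∈ Finset.piAntidiag (Finset.univ : Finset ι) (2 * t), (N m : ℝ) * (2 * t * (t - 1)) := by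
    rw [← Finset.sum_sub_distrib]
    refine Finset.sum_congr rfl fun m _ => ?_
    ring
  linarith

end Pool.Agent.H.MP_69c6fe_co
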