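import Mathlib
import Pool.Agent.H.MP_69c6fe_co.Ach

/-!
# Path-free subgraphs of `t`-partite graphs have at most `(t - 1) n` edges
-/

namespace Pool.Agent.H.MP_69c6fe_co

open Finset SimpleGraph

variable {V : Type*} [Fintype V] [DecidableEq V]

/-- a path with `l` edges inside `S` -/
def IsP (H : SimpleGraph V) (S : Finset V) (l : ℕ) (f : ℕ → V) : Prop :=
  (∀ i ≤ l, f i ∈ S) ∧ (∀ i j, i ≤ l → j ≤ l → f i = f j → i = j) ∧
    ∀ i < l, H.Adj (f i) (f (i + 1))

theorem IsP.card_le {H : SimpleGraph V} {S : Finset V} {l : ℕ} {f : ℕ → V} (h : IsP H S l f) :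
    l + 1 ≤ #S := by
  have h1 : #(Finset.range (l + 1)) ≤ #S := by
    apply Finset.card_le_card_of_injOn f
    · intro i hi
      have := Finset.mem_range.mp (Finset.mem_coe.mp hi)
      exact h.1 i (by omega)
    · intro i hi j hj hij
      have hi := Finset.mem_range.mp (Finset.mem_coe.mp hi)
      have hj := Finset.mem_range.mp (Finset.mem_coe.mp hj)
      exact h.2.1 i j (by omega) (by omega) hij
  rwa [Finset.card_range] at h1

/-- extend a path at the front -/
theorem IsP.cons {H : SimpleGraph V} {S : Finset V} {l : ℕ} {f : ℕ → V} (h : IsP H S l f) {z : V}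
    (hz : z ∈ S) (hz2 : ∀ i ≤ l, f i ≠ z) (hz3 : H.Adj z (f 0)) :
    IsP H S (l + 1) (fun i => if i = 0 then z else f (i - 1)) := by
  refine ⟨?_, ?_, ?_⟩
  · intro i hi
    simp only
    split_ifs with h0
    · exact hz
    · exact h.1 _ (by omega)
  · intro i j hi hj hij
    simp only at hij
    split_ifs at hij with h0 h1 h1
    · omega
    · exact absurd hij.symm (hz2 _ (by omega))
    · exact absurd hij (hz2 _ (by omega))
    · have := h.2.1 _ _ (by omega) (by omega) hij
      omega
  · intro i hi
    simp only
    by_cases h0 : i = 0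
    · subst h0
      simpa using hz3
    · rw [if_neg h0, if_neg (by omega)]
      have := h.2.2 (i - 1) (by omega)
      rw [show i - 1 + 1 = i by omega] at this
      rw [show i + 1 - 1 = i by omega]
      exact this

/-- reverse a path -/
theorem IsP.rev {H : SimpleGraph V} {S : Finset V} {l : ℕ} {f : ℕ → V} (h : IsP H S l f) :
    IsP H S l (fun i => f (l - i)) := by
  refine ⟨fun i hi => h.1 _ (by omega), ?_, ?_⟩
  · intro i j hi hj hij
    have := h.2.1 _ _ (by omega) (by omega) hij
    omega
  · intro i hi
    have := h.2.2 (l - (i + 1)) (by omega)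
    rw [show l - (i + 1) + 1 = l - i by omega] at this
    exact this.symm

/-- a closed path whose vertices see a new vertex gives a longer path -/
theorem IsP.cycle {H : SimpleGraph V} {S : Finset V} {l : ℕ} {g : ℕ → V} (h : IsP H S l g)
    (hc : H.Adj (g l) (g 0)) {z : V} (hz : z ∈ S) (hz2 : ∀ i ≤ l, g i ≠ z) {j : ℕ} (hj : j ≤ l)
    (hz3 : H.Adj z (g j)) : ∃ f, IsP H S (l + 1) f := by
  -- rotate
  have hrot : IsP H S l (fun i => if i + j ≤ l then g (i + j) else g (i + j - (l + 1))) := by
    refine ⟨?_, ?_, ?_⟩
    · intro i hi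
      simp only
      split_ifs
      · exact h.1 _ (by omega)
      · exact h.1 _ (by omega)
    · intro a b ha hb hab
      simp only at hab
      split_ifs at hab
      · have := h.2.1 _ _ (by omega) (by omega) hab
        omega
      · have := h.2.1 _ _ (by omega) (by omega) hab
        omega
      · have := h.2.1 _ _ (by omega) (by omega) hab
        omega
      · have := h.2.1 _ _ (by omega) (by omega) hab
        omega
    · intro i hi
      simp only
      by_cases h1 : i + 1 + j ≤ l
      · rw [if_pos (by omega), if_pos h1]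
        have := h.2.2 (i + j) (by omega)
        rw [show i + j + 1 = i + 1 + j by ring] at this
        exact this
      · by_cases h2 : i + j ≤ l
        · rw [if_pos h2, if_neg h1]
          have e1 : i + j = l := by omega
          rw [e1, show i + 1 + j - (l + 1) = 0 by omega]
          exact hc
        · rw [if_neg h2, if_neg h1]
          have := h.2.2 (i + j - (l + 1)) (by omega)
          rw [show i + j - (l + 1) + 1 = i + 1 + j - (l + 1) by omega] at this
          exact this
  refine ⟨_, hrot.cons hz ?_ ?_⟩
  · intro i hi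
    split_ifs
    · exact hz2 _ (by omega)
    · exact hz2 _ (by omega)
  · rw [if_pos (by omega), zero_add]
    exact hz3

/-- a vertex set with large minimum degree and no long path splits off a small piece -/
theorem exists_piece (H : SimpleGraph V) [DecidableRel H.Adj] {t : ℕ} (ht : 1 ≤ t)
    (hfree : (PP (2 * t)).Free H) (S : Finset V) (hS : S.Nonempty)
    (hdeg : ∀ v ∈ S, t ≤ #(S.filter (H.Adj v))) :
    ∃ C ⊆ S, C.Nonempty ∧ #C ≤ 2 * t ∧ ∀ x ∈ C, ∀ z ∈ S, H.Adj x z → z ∈ C := by
  classical
  -- a longest path
  have hex : ∃ l f, IsP H S l f := by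
    obtain ⟨v, hv⟩ := hS
    exact ⟨0, fun _ => v, fun _ _ => hv, fun i j hi hj _ => by omega, fun i hi => by omega⟩
  have hbd : ∀ l, (∃ f, IsP H S l f) → l ≤ #S := fun l ⟨f, hf⟩ => by
    have := hf.card_le
    omega
  set l := Nat.findGreatest (fun l => ∃ f, IsP H S l f) #S with hl
  have hlP : ∃ f, IsP H S l f := by
    obtain ⟨l', hl'⟩ := hex
    exact Nat.findGreatest_spec (P := fun l => ∃ f, IsP H S l f) (hbd l' hl') hl'
  have hmax : ∀ f, ¬ IsP H S (l + 1) f := by
    intro f hf
    have h1 := hbd (l + 1) ⟨f, hf⟩
    exact Nat.findGreatest_is_greatest (P := fun l => ∃ f, IsP H S l f)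
      (Nat.lt_succ_self l) h1 ⟨f, hf⟩
  obtain ⟨f, hf⟩ := hlP
  have hl2 : l < 2 * t := by
    by_contra hcon
    push Not at hcon
    exact free_of_map hfree f (fun i j hi hj => hf.2.1 i j (by omega) (by omega))
      (fun i hi => hf.2.2 i (by omega))
  -- neighbours of the first vertex
  have hN0 : ∀ z ∈ S, H.Adj (f 0) z → ∃ i < l, f (i + 1) = z := by
    intro z hz hz2
    by_contra hcon
    push Not at hcon
    refine hmax _ (hf.cons hz ?_ hz2.symm)
    intro i hi h
    rcases Nat.eq_zero_or_pos i with h0 | h0
    · rw [h0] at h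
      rw [h] at hz2
      exact H.irrefl hz2
    · have := hcon (i - 1) (by omega)
      rw [show i - 1 + 1 = i by omega] at this
      exact this h
  have hNl : ∀ z ∈ S, H.Adj (f l) z → ∃ i < l, f i = z := by
    intro z hz hz2
    by_contra hcon
    push Not at hcon
    refine hmax _ (hf.rev.cons hz ?_ ?_)
    · intro i hi h
      rcases Nat.lt_or_ge (l - i) l with h0 | h0
      · exact hcon _ h0 h
      · have : l - i = l := by omega
        rw [this] at h
        rw [h] at hz2
        exact H.irrefl hz2
    · simp only [Nat.sub_zero]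
      exact hz2.symm
  set A : Finset ℕ := (Finset.range l).filter (fun i => H.Adj (f 0) (f (i + 1))) with hA
  set B : Finset ℕ := (Finset.range l).filter (fun i => H.Adj (f l) (f i)) with hB
  have hAc : t ≤ #A := by
    refine (hdeg (f 0) (hf.1 0 (by omega))).trans ?_
    have h1 : S.filter (H.Adj (f 0)) ⊆ A.image (fun i => f (i + 1)) := by
      intro z hz
      have hz := Finset.mem_filter.mp hz
      obtain ⟨i, hi, hiz⟩ := hN0 z hz.1 hz.2
      rw [Finset.mem_image]
      refine ⟨i, Finset.mem_filter.mpr ⟨Finset.mem_range.mpr hi, ?_⟩, hiz⟩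
      rw [hiz]
      exact hz.2
    exact (Finset.card_le_card h1).trans Finset.card_image_le
  have hBc : t ≤ #B := by
    refine (hdeg (f l) (hf.1 l le_rfl)).trans ?_
    have h1 : S.filter (H.Adj (f l)) ⊆ B.image f := by
      intro z hz
      have hz := Finset.mem_filter.mp hz
      obtain ⟨i, hi, hiz⟩ := hNl z hz.1 hz.2
      rw [Finset.mem_image]
      refine ⟨i, Finset.mem_filter.mpr ⟨Finset.mem_range.mpr hi, ?_⟩, hiz⟩
      rw [hiz]
      exact hz.2
    exact (Finset.card_le_card h1).trans Finset.card_image_le
  have hAB : (A ∩ B).Nonempty := by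
    rw [← Finset.card_pos]
    have h1 : #(A ∪ B) ≤ l := by
      have h2 : A ∪ B ⊆ Finset.range l :=
        Finset.union_subset (Finset.filter_subset _ _) (Finset.filter_subset _ _)
      have := Finset.card_le_card h2
      rwa [Finset.card_range] at this
    have h3 := Finset.card_union_add_card_inter A B
    omega
  obtain ⟨i, hi⟩ := hAB
  have hiA := Finset.mem_filter.mp (Finset.mem_inter.mp hi).1
  have hiB := Finset.mem_filter.mp (Finset.mem_inter.mp hi).2
  have hil : i < l := Finset.mem_range.mp hiA.1
  -- the cyclic order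
  have hg : IsP H S l (fun k => if k ≤ i then f k else f (l + i + 1 - k)) := by
    refine ⟨?_, ?_, ?_⟩
    · intro k hk
      simp only
      split_ifs
      · exact hf.1 _ (by omega)
      · exact hf.1 _ (by omega)
    · intro a b ha hb hab
      simp only at hab
      split_ifs at hab
      · exact hf.2.1 _ _ (by omega) (by omega) hab
      · have := hf.2.1 _ _ (by omega) (by omega) hab
        omega
      · have := hf.2.1 _ _ (by omega) (by omega) hab
        omega
      · have := hf.2.1 _ _ (by omega) (by omega) hab
        omega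
    · intro k hk
      simp only
      by_cases h1 : k + 1 ≤ i
      · rw [if_pos (by omega), if_pos h1]
        exact hf.2.2 k (by omega)
      · by_cases h2 : k ≤ i
        · rw [if_pos h2, if_neg h1]
          have e1 : k = i := by omega
          rw [e1, show l + i + 1 - (i + 1) = l by omega]
          exact hiB.2.symm
        · rw [if_neg h2, if_neg h1]
          have := hf.2.2 (l + i + 1 - (k + 1)) (by omega)
          rw [show l + i + 1 - (k + 1) + 1 = l + i + 1 - k by omega] at this
          exact this.symm
  have hgc : H.Adj ((fun k => if k ≤ i then f k else f (l + i + 1 - k)) l)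
      ((fun k => if k ≤ i then f k else f (l + i + 1 - k)) 0) := by
    simp only
    rw [if_neg (by omega), if_pos (by omega), show l + i + 1 - l = i + 1 by omega]
    exact hiA.2.symm
  set g : ℕ → V := fun k => if k ≤ i then f k else f (l + i + 1 - k) with hgdef
  set C : Finset V := (Finset.range (l + 1)).image g with hC
  refine ⟨C, ?_, ?_, ?_, ?_⟩
  · intro x hx
    obtain ⟨k, hk, rfl⟩ := Finset.mem_image.mp hx
    exact hg.1 k (by have := Finset.mem_range.mp hk; omega)
  · exact ⟨g 0, Finset.mem_image.mpr ⟨0, Finset.mem_range.mpr (by omega), rfl⟩⟩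
  · refine Finset.card_image_le.trans ?_
    rw [Finset.card_range]
    omega
  · intro x hx z hz hxz
    obtain ⟨k, hk, rfl⟩ := Finset.mem_image.mp hx
    have hk := Finset.mem_range.mp hk
    by_contra hzC
    obtain ⟨f', hf'⟩ := hg.cycle hgc hz (fun a ha h => hzC (Finset.mem_image.mpr
      ⟨a, Finset.mem_range.mpr (by omega), h⟩)) (j := k) (by omega) hxz.symm
    exact hmax f' hf'

/-- ordered adjacent pairs inside `S` -/
noncomputable def pairs (H : SimpleGraph V) [DecidableRel H.Adj] (S : Finset V) : ℕ :=
  ∑ x ∈ S, #(S.filter (H.Adj x))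

theorem pairs_small (H : SimpleGraph V) [DecidableRel H.Adj] {t : ℕ} (ht : 2 ≤ t)
    (φ : V → Fin t) (hφ : ∀ x y, H.Adj x y → φ x ≠ φ y) (C : Finset V) (hC : #C ≤ 2 * t) :
    pairs H C ≤ 2 * ((t - 1) * #C) := by
  classical
  have h1 : ∀ x ∈ C, #(C.filter (H.Adj x)) ≤ #C - #(C.filter (fun y => φ y = φ x)) := by
    intro x _
    have h2 : C.filter (H.Adj x) ⊆ C \ C.filter (fun y => φ y = φ x) := by
      intro y hy
      have hy := Finset.mem_filter.mp hy
      rw [Finset.mem_sdiff]
      refine ⟨hy.1, fun h => ?_⟩
      exact hφ x y hy.2 (Finset.mem_filter.mp h).2.symm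
    refine (Finset.card_le_card h2).trans ?_
    rw [Finset.card_sdiff_of_subset (Finset.filter_subset _ _)]
  have h3 : (pairs H C : ℝ) ≤ ∑ x ∈ C, ((#C : ℝ) - #(C.filter (fun y => φ y = φ x))) := by
    unfold pairs
    push_cast
    refine Finset.sum_le_sum fun x hx => ?_
    have h4 := h1 x hx
    have h5 : #(C.filter (fun y => φ y = φ x)) ≤ #C := Finset.card_le_card (Finset.filter_subset _ _)
    rw [← Nat.cast_sub h5]
    exact_mod_cast h4
  have h6 : ∑ x ∈ C, (#(C.filter (fun y => φ y = φ x)) : ℝ) =
      ∑ c : Fin t, (#(C.filter (fun y => φ y = c)) : ℝ) ^ 2 := by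
    rw [← Finset.sum_fiberwise_of_maps_to (s := C) (t := Finset.univ) (g := φ)
      (fun x _ => Finset.mem_univ _)]
    refine Finset.sum_congr rfl fun c _ => ?_
    have h7 : ∀ x ∈ C.filter (fun x => φ x = c), (#(C.filter (fun y => φ y = φ x)) : ℝ) =
        #(C.filter (fun y => φ y = c)) := by
      intro x hx
      rw [(Finset.mem_filter.mp hx).2]
    rw [Finset.sum_congr rfl h7, Finset.sum_const, nsmul_eq_mul, sq]
  have h8 : ∑ c : Fin t, (#(C.filter (fun y => φ y = c)) : ℝ) = #C := by
    have := Finset.card_eq_sum_card_fiberwise (s := C) (t := Finset.univ) (f := φ)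
      (fun x _ => Finset.mem_univ _)
    exact_mod_cast this.symm
  have h9 : (#C : ℝ) ^ 2 ≤ t * ∑ c : Fin t, (#(C.filter (fun y => φ y = c)) : ℝ) ^ 2 := by
    have := sq_sum_le_card_mul_sum_sq (s := (Finset.univ : Finset (Fin t)))
      (f := fun c => (#(C.filter (fun y => φ y = c)) : ℝ))
    rw [h8, Finset.card_univ, Fintype.card_fin] at this
    exact this
  rw [Finset.sum_sub_distrib, h6, Finset.sum_const, nsmul_eq_mul] at h3
  have ht0 : (0 : ℝ) < t := by
    have : 0 < t := by omega
    exact_mod_cast this
  have hCr : (#C : ℝ) ≤ 2 * t := by exact_mod_cast hC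
  have h10 : (t : ℝ) * (pairs H C : ℝ) ≤ t * (2 * ((t - 1) * #C)) := by
    have h11 : (t : ℝ) * (pairs H C : ℝ) ≤ t * (#C : ℝ) ^ 2 - (#C : ℝ) ^ 2 := by nlinarith
    have h12 : (t : ℝ) * (#C : ℝ) ^ 2 - (#C : ℝ) ^ 2 = (t - 1) * #C * #C := by ring
    have ht1 : (0 : ℝ) ≤ (t : ℝ) - 1 := by
      have : (2 : ℝ) ≤ t := by exact_mod_cast ht
      linarith
    have h13 : ((t : ℝ) - 1) * #C * #C ≤ (t - 1) * #C * (2 * t) :=
      mul_le_mul_of_nonneg_left hCr (by positivity)
    linarith
  have h14 : (pairs H C : ℝ) ≤ 2 * ((t - 1) * #C) := le_of_mul_le_mul_left h10 ht0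
  have h15 : ((2 * ((t - 1) * #C) : ℕ) : ℝ) = 2 * ((t - 1) * #C) := by
    push_cast [Nat.cast_sub (by omega : 1 ≤ t)]
    ring
  rw [← h15] at h14
  exact_mod_cast h14

theorem pairs_le (H : SimpleGraph V) [DecidableRel H.Adj] {t : ℕ} (ht : 2 ≤ t)
    (φ : V → Fin t) (hφ : ∀ x y, H.Adj x y → φ x ≠ φ y) (hfree : (PP (2 * t)).Free H) (n : ℕ) :
    ∀ S : Finset V, #S = n → pairs H S ≤ 2 * ((t - 1) * #S) := by
  classical
  induction n using Nat.strong_induction_on with
  | _ n ih =>
    intro S hSn
    rcases S.eq_empty_or_nonempty with h0 | hne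
    · rw [h0]
      simp [pairs]
    · by_cases hdeg : ∀ v ∈ S, t ≤ #(S.filter (H.Adj v))
      · obtain ⟨C, hCS, hCne, hCc, hCcl⟩ := exists_piece H (by omega) hfree S hne hdeg
        have h1 := pairs_small H ht φ hφ C hCc
        have hcard : #(S \ C) = #S - #C := Finset.card_sdiff_of_subset hCS
        have hCpos := hCne.card_pos
        have hCle := Finset.card_le_card hCS
        have h2 := ih #(S \ C) (by omega) (S \ C) rfl
        have h3 : pairs H S = pairs H C + pairs H (S \ C) := by
          unfold pairs
          rw [← Finset.sum_sdiff hCS, add_comm]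
          congr 1
          · refine Finset.sum_congr rfl fun x hx => ?_
            congr 1
            ext z
            simp only [Finset.mem_filter]
            exact ⟨fun h => ⟨hCcl x hx z h.1 h.2, h.2⟩, fun h => ⟨hCS h.1, h.2⟩⟩
          · refine Finset.sum_congr rfl fun x hx => ?_
            have hx := Finset.mem_sdiff.mp hx
            congr 1
            ext z
            simp only [Finset.mem_filter, Finset.mem_sdiff]
            refine ⟨fun h => ⟨⟨h.1, fun hz => hx.2 (hCcl z hz x hx.1 h.2.symm)⟩, h.2⟩,
              fun h => ⟨h.1.1, h.2⟩⟩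
        rw [h3]
        have h4 : (t - 1) * #S = (t - 1) * #C + (t - 1) * #(S \ C) := by
          rw [← Nat.mul_add]
          congr 1
          omega
        omega
      · push Not at hdeg
        obtain ⟨v, hv, hvd⟩ := hdeg
        have hcard : #(S.erase v) = #S - 1 := Finset.card_erase_of_mem hv
        have hSpos := hne.card_pos
        have h2 := ih #(S.erase v) (by omega) (S.erase v) rfl
        have h3 : pairs H S = pairs H (S.erase v) + 2 * #(S.filter (H.Adj v)) := by
          unfold pairs
          rw [← Finset.add_sum_erase _ _ hv]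
          have h4 : ∀ x ∈ S.erase v, #(S.filter (H.Adj x)) =
              #((S.erase v).filter (H.Adj x)) + if H.Adj v x then 1 else 0 := by
            intro x hx
            have h5 : S.filter (H.Adj x) = (if H.Adj v x then insert v ((S.erase v).filter (H.Adj x))
                else (S.erase v).filter (H.Adj x)) := by
              ext z
              by_cases hvx : H.Adj v x
              · rw [if_pos hvx]
                simp only [Finset.mem_filter, Finset.mem_insert, Finset.mem_erase]
                constructor
                · intro h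
                  by_cases hz : z = v
                  · exact Or.inl hz
                  · exact Or.inr ⟨⟨hz, h.1⟩, h.2⟩
                · rintro (h | h)
                  · rw [h]
                    exact ⟨hv, hvx.symm⟩
                  · exact ⟨h.1.2, h.2⟩
              · rw [if_neg hvx]
                simp only [Finset.mem_filter, Finset.mem_erase]
                constructor
                · intro h
                  refine ⟨⟨?_, h.1⟩, h.2⟩
                  intro hz
                  rw [hz] at h
                  exact hvx h.2.symm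
                · intro h
                  exact ⟨h.1.2, h.2⟩
            rw [h5]
            split_ifs
            · rw [Finset.card_insert_of_notMem (by simp)]
            · rfl
          rw [Finset.sum_congr rfl h4, Finset.sum_add_distrib]
          have h6 : ∑ x ∈ S.erase v, (if H.Adj v x then 1 else 0) = #(S.filter (H.Adj v)) := by
            rw [← Finset.card_filter]
            congr 1
            ext z
            simp only [Finset.mem_filter, Finset.mem_erase]
            constructor
            · intro h
              exact ⟨h.1.2, h.2⟩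
            · intro h
              refine ⟨⟨?_, h.1⟩, h.2⟩
              intro hz
              rw [hz] at h
              exact H.irrefl h.2
          rw [h6]
          ring
        rw [h3]
        have h4 : (t - 1) * #S = (t - 1) * #(S.erase v) + (t - 1) := by
          have : #S = #(S.erase v) + 1 := by omega
          rw [this]
          ring
        omega

theorem lower_edges {V : Type*} [Fintype V] [DecidableEq V] (H : SimpleGraph V) {t : ℕ} (ht : 2 ≤ t)
    (φ : V → Fin t) (hφ : ∀ x y, H.Adj x y → φ x ≠ φ y)
    (hfree : (SimpleGraph.pathGraph (2 * t + 1)).Free H) :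
    H.edgeSet.ncard ≤ (t - 1) * Fintype.card V := by
  classical
  have h1 := pairs_le H ht φ hφ hfree #(Finset.univ : Finset V) Finset.univ rfl
  have h2 : pairs H Finset.univ = 2 * #H.edgeFinset := by
    rw [← sum_degrees_eq_twice_card_edges]
    unfold pairs
    refine Finset.sum_congr rfl fun x _ => ?_
    rw [← card_neighborFinset_eq_degree]
    congr 1
    ext z
    simp
  have h3 : H.edgeSet.ncard = #H.edgeFinset := by
    rw [← coe_edgeFinset, Set.ncard_coe_finset]
  rw [h2, Finset.card_univ] at h1
  omega

end Pool.Agent.H.MP_69c6fe_co
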