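import Mathlib
import Pool.Agent.H.MP_69c6fe_co.Assembly

/-!
# From Szemerédi's regularity lemma to a regular system
-/

namespace Pool.Agent.H.MP_69c6fe_co

open Finset SimpleGraph

variable {V : Type*} [Fintype V] [DecidableEq V]

theorem card_piAntidiag_le {ι : Type*} [Fintype ι] [DecidableEq ι] (n M : ℕ)
    (hM : Fintype.card ι ≤ M) :
    #(Finset.piAntidiag (Finset.univ : Finset ι) n) ≤ (n + 1) ^ M := by
  have h1 : Finset.piAntidiag (Finset.univ : Finset ι) n ⊆
      Fintype.piFinset (fun _ : ι => Finset.range (n + 1)) := by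
    intro m hm
    rw [Fintype.mem_piFinset]
    intro v
    rw [Finset.mem_range]
    have h2 : ∑ u, m u = n := by simpa using (Finset.mem_piAntidiag.mp hm).1
    have h3 : m v ≤ ∑ u, m u := Finset.single_le_sum (fun _ _ => Nat.zero_le _) (Finset.mem_univ v)
    omega
  refine (Finset.card_le_card h1).trans ?_
  rw [Fintype.card_piFinset, Finset.prod_const, Finset.card_range, Finset.card_univ]
  exact Nat.pow_le_pow_right (by omega) hM

theorem DD_le_sq {ι : Type*} [Fintype ι] (R : SimpleGraph ι) [DecidableRel R.Adj] (s : ι → ℝ)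
    (hs : ∀ v, 0 ≤ s v) : DD R s ≤ (∑ v, s v) ^ 2 := by
  rw [sq, Finset.sum_mul_sum]
  unfold DD
  refine Finset.sum_le_sum fun u _ => Finset.sum_le_sum fun v _ => ?_
  split_ifs
  · exact le_rfl
  · exact mul_nonneg (hs u) (hs v)

/-- dense uniform pairs -/
def Dense (G : SimpleGraph V) [DecidableRel G.Adj] (ε δ : ℝ) (p q : Finset V) : Prop :=
  p ≠ q ∧ G.IsUniform ε p q ∧ 2 * δ ≤ (G.edgeDensity p q : ℝ)

theorem Dense.symm {G : SimpleGraph V} [DecidableRel G.Adj] {ε δ : ℝ} {p q : Finset V}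
    (h : Dense G ε δ p q) : Dense G ε δ q p :=
  ⟨h.1.symm, h.2.1.symm, by rw [edgeDensity_comm]; exact h.2.2⟩

theorem card_interedges_eq (G : SimpleGraph V) [DecidableRel G.Adj] (S T : Finset V) :
    (#(G.interedges S T) : ℝ) = ∑ x ∈ S, (#(T.filter (G.Adj x)) : ℝ) := by
  rw [interedges_def, Finset.card_filter, Finset.sum_product]
  push_cast
  refine Finset.sum_congr rfl fun x _ => ?_
  rw [Finset.card_filter]
  push_cast
  rfl

theorem Dense.reg {G : SimpleGraph V} [DecidableRel G.Adj] {ε δ : ℝ} {p q : Finset V}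
    (h : Dense G ε δ p q) (hεδ : ε ≤ δ) {S T : Finset V} (hS : S ⊆ p) (hT : T ⊆ q)
    (hSp : ε * #p ≤ #S) (hTq : ε * #q ≤ #T) :
    δ * #S * #T ≤ ∑ x ∈ S, (#(T.filter (G.Adj x)) : ℝ) := by
  rw [← card_interedges_eq]
  have h1 := h.2.1 hS hT (by rw [mul_comm]; exact hSp) (by rw [mul_comm]; exact hTq)
  have h2 := (abs_lt.mp h1).1
  have h3 : δ ≤ (G.edgeDensity S T : ℝ) := by linarith [h.2.2]
  by_cases hz : (#S : ℝ) * #T = 0
  · rw [mul_assoc, hz, mul_zero]
    exact Nat.cast_nonneg _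
  · have e2 : (#(G.interedges S T) : ℝ) = (G.edgeDensity S T : ℝ) * (#S * #T) := by
      rw [edgeDensity_def]
      push_cast
      rw [div_mul_cancel₀ _ hz]
    rw [e2, mul_assoc]
    exact mul_le_mul_of_nonneg_right h3 (by positivity)

set_option maxHeartbeats 2000000 in
open Classical in
/-- The regularity step: a graph with many vertices contains a path-free subgraph with the right
number of edges. -/
theorem regular_main {t : ℕ} (ht : 2 ≤ t) {κ : ℝ} (hκ : 0 < κ) : ∃ n₀ : ℕ,
    ∀ (V : Type) [Fintype V] [DecidableEq V] (G : SimpleGraph V) [DecidableRel G.Adj],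
      n₀ ≤ Fintype.card V →
      Ach G t Finset.univ (Real.sqrt (2 * t * (t - 1) * #G.edgeFinset) - κ * Fintype.card V) := by
  have ht1 : (1 : ℝ) ≤ t := by exact_mod_cast (by omega : 1 ≤ t)
  have ht2 : (2 : ℝ) ≤ t := by exact_mod_cast ht
  -- the constants
  set L : ℝ := (κ / (2 * t)) ^ 2 with hL
  have hL0 : 0 < L := by positivity
  set δ : ℝ := min (1 / 2) (L / 24) with hδ
  have hδ0 : 0 < δ := lt_min (by norm_num) (by positivity)
  have hδ2 : δ ≤ 1 / 2 := min_le_left _ _
  have hδL : 8 * δ ≤ L / 3 := by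
    have := min_le_right (1 / 2) (L / 24)
    rw [← hδ] at this
    linarith
  set β : ℝ := min (1 / 4) (κ / (16 * t)) with hβ
  have hβ0 : 0 < β := lt_min (by norm_num) (by positivity)
  have hβ4 : β ≤ 1 / 4 := min_le_left _ _
  have hβκ : 4 * β * t ≤ κ / 4 := by
    have := min_le_right (1 / 4) (κ / (16 * t))
    rw [← hβ, le_div_iff₀ (by positivity)] at this
    linarith
  set ε : ℝ := min (min δ (L / 12)) (β * δ ^ (2 * t) / (((2 * t : ℕ) : ℝ) + 1)) with hε
  have hε0 : 0 < ε := by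
    refine lt_min (lt_min hδ0 (by positivity)) (by positivity)
  have hεδ : ε ≤ δ := (min_le_left _ _).trans (min_le_left _ _)
  have hεL : 4 * ε ≤ L / 3 := by
    have : ε ≤ L / 12 := (min_le_left _ _).trans (min_le_right _ _)
    linarith
  have hεM : (((2 * t : ℕ) : ℝ) + 1) * ε ≤ β * δ ^ (2 * t) := by
    have : ε ≤ β * δ ^ (2 * t) / (((2 * t : ℕ) : ℝ) + 1) := min_le_right _ _
    rw [le_div_iff₀ (by positivity)] at this
    linarith
  set l : ℕ := ⌈4 / (2 * L / 3)⌉₊ + 1 with hl
  set M : ℕ := SzemerediRegularity.bound ε l with hM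
  have hMpos : 0 < M := SzemerediRegularity.bound_pos _ _
  set J : ℕ := ⌈2 * M / (δ ^ (t - 1) * β)⌉₊ with hJ
  set K : ℝ := 1 + ((2 * t + 1 : ℕ) : ℝ) ^ M * t with hK
  set n₀ : ℕ := max (max l (2 * M)) (max (⌈2 * M * (2 / (β * δ ^ (2 * t)))⌉₊)
    (max (⌈2 * M * (((t - 1 : ℕ) : ℝ) * J / β)⌉₊) (⌈4 * K / κ⌉₊))) with hn₀
  refine ⟨n₀, ?_⟩
  intro V _ _ G _ hn
  have hn1 : l ≤ Fintype.card V := (le_max_left _ _).trans ((le_max_left _ _).trans hn)
  have hn2 : 2 * M ≤ Fintype.card V := (le_max_right _ _).trans ((le_max_left _ _).trans hn)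
  have hn3 : 2 * M * (2 / (β * δ ^ (2 * t))) ≤ Fintype.card V :=
    (Nat.le_ceil _).trans (by
      exact_mod_cast (le_max_left _ _).trans ((le_max_right _ _).trans hn))
  have hn4 : 2 * M * (((t - 1 : ℕ) : ℝ) * J / β) ≤ Fintype.card V :=
    (Nat.le_ceil _).trans (by
      exact_mod_cast (le_max_left _ _).trans ((le_max_right _ _).trans
        ((le_max_right _ _).trans hn)))
  have hn5 : 4 * K / κ ≤ Fintype.card V :=
    (Nat.le_ceil _).trans (by
      exact_mod_cast (le_max_right _ _).trans ((le_max_right _ _).trans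
        ((le_max_right _ _).trans hn)))
  have hVne : Nonempty V := by
    rw [← Fintype.card_pos_iff]
    omega
  set n : ℝ := (Fintype.card V : ℝ) with hnV
  have hnpos : 0 < n := by
    rw [hnV]
    exact_mod_cast Fintype.card_pos
  have hMr : (0 : ℝ) < M := by exact_mod_cast hMpos
  obtain ⟨P, hP1, hP2, hP3, hP4⟩ := szemeredi_regularity G hε0 hn1
  have hPne : P.parts.Nonempty := P.parts_nonempty (by
    intro h
    have h2 : (Finset.univ : Finset V) = ∅ := h
    exact Finset.univ_nonempty.ne_empty h2)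
  have hPpos : 0 < #P.parts := hPne.card_pos
  -- lower bound for the parts
  set a : ℝ := n / (2 * M) with ha
  have hpart : ∀ U ∈ P.parts, a ≤ #U := by
    intro U hU
    have h1 := hP1.average_le_card_part hU
    rw [Finset.card_univ] at h1
    have h2 : Fintype.card V < (Fintype.card V / #P.parts + 1) * #P.parts := by
      have := Nat.lt_div_mul_add (a := Fintype.card V) hPpos
      linarith
    have h3 : (Fintype.card V : ℝ) ≤ ((#U : ℝ) + 1) * #P.parts := by
      have h4 : Fintype.card V ≤ (#U + 1) * #P.parts :=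
        h2.le.trans (Nat.mul_le_mul_right _ (by omega))
      exact_mod_cast h4
    have h5 : (#P.parts : ℝ) ≤ M := by exact_mod_cast hP3
    have h6 : n ≤ ((#U : ℝ) + 1) * M :=
      h3.trans (mul_le_mul_of_nonneg_left h5 (by positivity))
    have h7 : 2 * (M : ℝ) ≤ n := by
      rw [hnV]
      exact_mod_cast hn2
    have h8 : (1 : ℝ) ≤ #U := by
      have h9 : 2 * (M : ℝ) ≤ ((#U : ℝ) + 1) * M := h7.trans h6
      have h10 : (2 : ℝ) ≤ (#U : ℝ) + 1 := le_of_mul_le_mul_right h9 hMr
      linarith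
    rw [ha, div_le_iff₀ (by positivity)]
    nlinarith
  -- the reduced graph on its non-isolated vertices
  let ι : Type := {p : Finset V // p ∈ P.parts ∧ ∃ q ∈ P.parts, Dense G ε δ p q}
  let A : ι → Finset V := fun p => p.1
  let R : SimpleGraph ι :=
    { Adj := fun p q => Dense G ε δ p.1 q.1
      symm := ⟨fun p q h => h.symm⟩
      loopless := ⟨fun p h => h.1 rfl⟩ }
  have hAdisj : ∀ u v : ι, u ≠ v → Disjoint (A u) (A v) := by
    intro u v huv
    exact P.disjoint u.2.1 v.2.1 (fun h => huv (Subtype.ext h))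
  have hsys : Sys G A R ε δ := ⟨hAdisj, fun u v huv S hS T hT h1 h2 =>
    Dense.reg huv hεδ hS hT h1 h2⟩
  have hnon : ∀ v : ι, ∃ u, R.Adj u v := by
    intro v
    obtain ⟨q, hq, hvq⟩ := v.2.2
    exact ⟨⟨q, hq, v.1, v.2.1, hvq.symm⟩, hvq.symm⟩
  have hιM : Fintype.card ι ≤ M := by
    refine le_trans ?_ hP3
    rw [← Fintype.card_coe]
    refine Fintype.card_le_of_injective (fun p : ι => (⟨p.1, p.2.1⟩ : {x // x ∈ P.parts})) ?_
    intro p q hpq
    have := congrArg Subtype.val hpq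
    exact Subtype.ext this
  have hsumA : ∑ v : ι, (#(A v) : ℝ) ≤ n := by
    have h1 : ∑ v : ι, #(A v) = #(Finset.univ.biUnion A) :=
      (Finset.card_biUnion fun u _ v _ huv => hAdisj u v huv).symm
    have h2 : #(Finset.univ.biUnion A) ≤ Fintype.card V := Finset.card_le_univ _
    rw [hnV]
    exact_mod_cast h1.le.trans h2
  have hmain := hsys.main hnon hε0.le hδ0 le_rfl hδ2 hβ0 hβ4 ht hεM (a := a) J
    (fun v => hpart v.1 v.2.1)
    (by
      rw [ha]
      have h1 : (2 : ℝ) / (β * δ ^ (2 * t)) ≤ n / (2 * M) := by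
        rw [le_div_iff₀ (by positivity)]
        linarith
      rw [div_le_iff₀ (by positivity)] at h1
      linarith)
    (by
      rw [ha]
      have h1 : ((t - 1 : ℕ) : ℝ) * J / β ≤ n / (2 * M) := by
        rw [le_div_iff₀ (by positivity)]
        linarith
      rw [div_le_iff₀ (by positivity)] at h1
      linarith)
    (by
      refine hsumA.trans ?_
      have h1 : 2 * M / (δ ^ (t - 1) * β) ≤ (J : ℝ) := Nat.le_ceil _
      rw [div_le_iff₀ (by positivity)] at h1
      have h2 : (J : ℝ) * (δ ^ (t - 1) * β * a) = (J * (δ ^ (t - 1) * β)) * a := by ring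
      rw [h2]
      have h3 : n = 2 * M * a := by
        rw [ha]
        field_simp
      calc n = 2 * M * a := h3
        _ ≤ _ := mul_le_mul_of_nonneg_right h1 (by positivity))
  refine hmain.mono (Finset.Subset.refl _) ?_
  -- the counting of the edges
  set DDA : ℝ := DD R (fun v => (#(A v) : ℝ)) with hDDA
  have hcount : 2 * (#G.edgeFinset : ℝ) ≤ DDA + L * n ^ 2 := by
    have e1 : 2 * (#G.edgeFinset : ℝ) = #(Finset.univ.filter fun p : V × V => G.Adj p.1 p.2) := by
      exact_mod_cast two_mul_card_edgeFinset G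
    rw [e1]
    set X1 := (P.nonUniforms G ε).biUnion fun (U, W) ↦ U ×ˢ W with hX1
    set X2 := P.parts.biUnion offDiag with hX2
    set X3 := (P.sparsePairs G (2 * δ)).biUnion fun (U, W) ↦ G.interedges U W with hX3
    set X4 : Finset (V × V) := ((Finset.univ : Finset (ι × ι)).filter fun q => R.Adj q.1 q.2).biUnion
      (fun q => A q.1 ×ˢ A q.2) with hX4
    have hsub : (Finset.univ.filter fun p : V × V => G.Adj p.1 p.2) ⊆ X1 ∪ X2 ∪ X3 ∪ X4 := by
      rintro ⟨x, y⟩ hxy
      have hxy : G.Adj x y := (Finset.mem_filter.mp hxy).2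
      obtain ⟨U, hU, hxU⟩ := P.exists_mem (Finset.mem_univ x)
      obtain ⟨W, hW, hyW⟩ := P.exists_mem (Finset.mem_univ y)
      by_cases hUW : U = W
      · subst hUW
        refine Finset.mem_union_left _ (Finset.mem_union_left _ (Finset.mem_union_right _ ?_))
        rw [hX2, Finset.mem_biUnion]
        exact ⟨U, hU, Finset.mem_offDiag.mpr ⟨hxU, hyW, G.ne_of_adj hxy⟩⟩
      · by_cases hun : G.IsUniform ε U W
        · by_cases hde : 2 * δ ≤ (G.edgeDensity U W : ℝ)
          · refine Finset.mem_union_right _ ?_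
            rw [hX4, Finset.mem_biUnion]
            have hD : Dense G ε δ U W := ⟨hUW, hun, hde⟩
            refine ⟨(⟨U, hU, W, hW, hD⟩, ⟨W, hW, U, hU, hD.symm⟩),
              Finset.mem_filter.mpr ⟨Finset.mem_univ _, hD⟩, Finset.mem_product.mpr ⟨hxU, hyW⟩⟩
          · refine Finset.mem_union_left _ (Finset.mem_union_right _ ?_)
            rw [hX3, Finset.mem_biUnion]
            refine ⟨(U, W), ?_, ?_⟩
            · rw [Finpartition.mk_mem_sparsePairs]
              exact ⟨hU, hW, hUW, not_le.mp hde⟩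
            · exact (mem_interedges_iff G).mpr ⟨hxU, hyW, hxy⟩
        · refine Finset.mem_union_left _ (Finset.mem_union_left _ (Finset.mem_union_left _ ?_))
          rw [hX1, Finset.mem_biUnion]
          exact ⟨(U, W), (Finpartition.mk_mem_nonUniforms P G).mpr ⟨hU, hW, hUW, hun⟩,
            Finset.mem_product.mpr ⟨hxU, hyW⟩⟩
    have hc := Finset.card_le_card hsub
    have hc2 : #(X1 ∪ X2 ∪ X3 ∪ X4) ≤ #X1 + #X2 + #X3 + #X4 := by
      have := Finset.card_union_le (X1 ∪ X2 ∪ X3) X4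
      have := Finset.card_union_le (X1 ∪ X2) X3
      have := Finset.card_union_le X1 X2
      omega
    have b1 : (#X1 : ℝ) ≤ 4 * ε * n ^ 2 := by
      have := hP1.sum_nonUniforms_lt (G := G) Finset.univ_nonempty hε0 hP4
      rw [Finset.card_univ] at this
      exact this.le
    have b2 : (#X2 : ℝ) ≤ L / 3 * n ^ 2 := by
      have := hP1.card_biUnion_offDiag_le (𝕜 := ℝ) (ε := 2 * L / 3) (by positivity) (by
        refine (Nat.le_ceil _).trans ?_
        have : ⌈4 / (2 * L / 3)⌉₊ ≤ #P.parts := by omega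
        exact_mod_cast this)
      rw [Finset.card_univ] at this
      refine this.trans (le_of_eq ?_)
      ring
    have b3 : (#X3 : ℝ) ≤ 4 * (2 * δ) * n ^ 2 := by
      have := hP1.card_interedges_sparsePairs_le (G := G) (ε := 2 * δ) (by positivity)
      rw [Finset.card_univ] at this
      exact this
    have b4 : (#X4 : ℝ) ≤ DDA := by
      have h1 : #X4 ≤ ∑ q ∈ (Finset.univ : Finset (ι × ι)).filter (fun q => R.Adj q.1 q.2),
          #(A q.1 ×ˢ A q.2) := Finset.card_biUnion_le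
      have h2 : DDA = ∑ q ∈ (Finset.univ : Finset (ι × ι)).filter (fun q => R.Adj q.1 q.2),
          ((#(A q.1 ×ˢ A q.2) : ℕ) : ℝ) := by
        rw [hDDA]
        unfold DD
        rw [Finset.sum_filter, ← Finset.univ_product_univ, Finset.sum_product]
        refine Finset.sum_congr rfl fun u _ => Finset.sum_congr rfl fun v _ => ?_
        simp only [Finset.card_product]
        push_cast
        rfl
      rw [h2]
      exact_mod_cast h1
    have hc3 : (#(Finset.univ.filter fun p : V × V => G.Adj p.1 p.2) : ℝ) ≤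
        #X1 + #X2 + #X3 + #X4 := by
      exact_mod_cast hc.trans hc2
    have : 0 ≤ n ^ 2 := by positivity
    nlinarith
  have hDDn : DDA ≤ n ^ 2 := by
    have h1 : DDA ≤ (∑ v : ι, (#(A v) : ℝ)) ^ 2 :=
      DD_le_sq R (fun v => (#(A v) : ℝ)) (fun v => Nat.cast_nonneg _)
    have h2 : 0 ≤ ∑ v : ι, (#(A v) : ℝ) := Finset.sum_nonneg fun _ _ => Nat.cast_nonneg _
    exact h1.trans (pow_le_pow_left₀ h2 hsumA 2)
  have hDD0 : 0 ≤ DDA := DD_nonneg R _ fun v => Nat.cast_nonneg _
  have htt : (0 : ℝ) ≤ t * (t - 1) := mul_nonneg (by linarith) (by linarith)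
  have hs1 : Real.sqrt (2 * t * (t - 1) * #G.edgeFinset) ≤
      Real.sqrt ((t : ℝ) * (t - 1) * DDA) + κ / 2 * n := by
    have h1 : 2 * t * (t - 1) * (#G.edgeFinset : ℝ) ≤
        (t : ℝ) * (t - 1) * DDA + (t : ℝ) * (t - 1) * (L * n ^ 2) := by
      have := mul_le_mul_of_nonneg_left hcount htt
      linarith
    have h2 : (t : ℝ) * (t - 1) * (L * n ^ 2) ≤ (κ / 2 * n) ^ 2 := by
      have h3 : (t : ℝ) * (t - 1) ≤ t ^ 2 := by nlinarith
      have h4 : (t : ℝ) ^ 2 * (L * n ^ 2) = (κ / 2 * n) ^ 2 := by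
        rw [hL]
        field_simp
      rw [← h4]
      exact mul_le_mul_of_nonneg_right h3 (by positivity)
    have h5 : 0 ≤ (t : ℝ) * (t - 1) * DDA := mul_nonneg htt hDD0
    apply Real.sqrt_le_iff.mpr
    refine ⟨by positivity, ?_⟩
    have h6 := Real.sq_sqrt h5
    have h7 : 0 ≤ Real.sqrt ((t : ℝ) * (t - 1) * DDA) * (κ / 2 * n) := by positivity
    nlinarith
  have hs2 : Real.sqrt ((t : ℝ) * (t - 1) * DDA) ≤ t * n := by
    apply Real.sqrt_le_iff.mpr
    refine ⟨by positivity, ?_⟩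
    have h3 : (t : ℝ) * (t - 1) ≤ t ^ 2 := by nlinarith
    calc (t : ℝ) * (t - 1) * DDA ≤ t ^ 2 * n ^ 2 := mul_le_mul h3 hDDn hDD0 (by positivity)
      _ = (t * n) ^ 2 := by ring
  have hs3 : 4 * β * Real.sqrt ((t : ℝ) * (t - 1) * DDA) ≤ κ / 4 * n := by
    calc 4 * β * Real.sqrt ((t : ℝ) * (t - 1) * DDA) ≤ 4 * β * (t * n) :=
          mul_le_mul_of_nonneg_left hs2 (by positivity)
      _ = (4 * β * t) * n := by ring
      _ ≤ κ / 4 * n := mul_le_mul_of_nonneg_right hβκ hnpos.le
  have hK1 : 1 + (#(Finset.piAntidiag (Finset.univ : Finset ι) (2 * t)) : ℝ) * t ≤ K := by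
    have h1 := card_piAntidiag_le (ι := ι) (2 * t) M hιM
    have h2 : (#(Finset.piAntidiag (Finset.univ : Finset ι) (2 * t)) : ℝ) ≤
        ((2 * t + 1 : ℕ) : ℝ) ^ M := by exact_mod_cast h1
    rw [hK]
    have := mul_le_mul_of_nonneg_right h2 (show (0 : ℝ) ≤ t by positivity)
    linarith
  have hK2 : K ≤ κ / 4 * n := by
    rw [div_le_iff₀ hκ] at hn5
    linarith
  linarith

end Pool.Agent.H.MP_69c6fe_co
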