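import Mathlib
import Pool.Agent.H.MP_69c6fe_co.Ach

/-!
# The number of non-isolated vertices
-/

namespace Pool.Agent.H.MP_69c6fe_co

open Finset SimpleGraph

variable {V : Type*} [Fintype V] [DecidableEq V]

/-- a set of vertices that is matched -/
theorem cover_set (G : SimpleGraph V) {t : ℕ} (ht : 2 ≤ t) (k : ℕ)
    (hk : ∀ r : ℝ, Ach G t Finset.univ r → r < k) :
    ∃ W : Finset V, #W ≤ 2 * k ∧ ∀ x y, G.Adj x y → x ∈ W ∨ y ∈ W := by
  classical
  set 𝓜 : Finset (SimpleGraph V) := Finset.univ.filter
    (fun H => H ≤ G ∧ ∀ x y z, H.Adj x y → H.Adj x z → y = z) with h𝓜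
  have hne : 𝓜.Nonempty := ⟨⊥, by
    rw [h𝓜, Finset.mem_filter]
    exact ⟨Finset.mem_univ _, bot_le, fun x y z h => absurd h (by simp)⟩⟩
  obtain ⟨H, hH, hmax⟩ := Finset.exists_max_image 𝓜 (fun H => H.edgeSet.ncard) hne
  rw [h𝓜, Finset.mem_filter] at hH
  obtain ⟨_, hHG, hHm⟩ := hH
  set W : Finset V := Finset.univ.filter (fun x => ∃ y, H.Adj x y) with hW
  have hdeg : ∀ x, H.degree x = if x ∈ W then 1 else 0 := by
    intro x
    by_cases hx : x ∈ W
    · rw [if_pos hx]
      obtain ⟨y, hy⟩ := (Finset.mem_filter.mp hx).2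
      rw [← card_neighborFinset_eq_degree, Finset.card_eq_one]
      refine ⟨y, ?_⟩
      ext z
      rw [mem_neighborFinset, Finset.mem_singleton]
      constructor
      · intro hz
        exact hHm x z y hz hy
      · intro hz
        rw [hz]
        exact hy
    · rw [if_neg hx, ← card_neighborFinset_eq_degree, Finset.card_eq_zero]
      apply Finset.eq_empty_of_forall_notMem
      intro z hz
      rw [mem_neighborFinset] at hz
      exact hx (Finset.mem_filter.mpr ⟨Finset.mem_univ _, z, hz⟩)
  have hWc : #W = 2 * #H.edgeFinset := by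
    rw [← sum_degrees_eq_twice_card_edges, Finset.sum_congr rfl fun x _ => hdeg x]
    simp
  refine ⟨W, ?_, ?_⟩
  · have hach : Ach G t Finset.univ (#H.edgeFinset : ℝ) := by
      refine ⟨H, hHG, fun x y _ => ⟨Finset.mem_univ _, Finset.mem_univ _⟩, ?_, ?_⟩
      · apply free_of_no_map
        intro f hf hall
        have h1 := hall 0 (by omega)
        have h2 := hall 1 (by omega)
        have h3 := hHm _ _ _ h1.symm h2
        have := hf 0 2 (by omega) (by omega) h3
        omega
      · rw [← coe_edgeFinset, Set.ncard_coe_finset]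
    have h1 := hk _ hach
    have h2 : #H.edgeFinset < k := by exact_mod_cast h1
    omega
  · intro x y hxy
    by_contra hcon
    push Not at hcon
    obtain ⟨hx, hy⟩ := hcon
    have hx' : ∀ z, ¬ H.Adj x z := fun z hz => hx (Finset.mem_filter.mpr ⟨Finset.mem_univ _, z, hz⟩)
    have hy' : ∀ z, ¬ H.Adj y z := fun z hz => hy (Finset.mem_filter.mpr ⟨Finset.mem_univ _, z, hz⟩)
    have hxy' : x ≠ y := G.ne_of_adj hxy
    set H' : SimpleGraph V :=
      { Adj := fun a b => H.Adj a b ∨ (a = x ∧ b = y) ∨ (a = y ∧ b = x)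
        symm := ⟨fun a b h => by
          rcases h with h | h | h
          · exact Or.inl h.symm
          · exact Or.inr (Or.inr ⟨h.2, h.1⟩)
          · exact Or.inr (Or.inl ⟨h.2, h.1⟩)⟩
        loopless := ⟨fun a h => by
          rcases h with h | h | h
          · exact H.irrefl h
          · exact hxy' (h.1.symm.trans h.2)
          · exact hxy' (h.2.symm.trans h.1)⟩ } with hH'
    have hmem : H' ∈ 𝓜 := by
      rw [h𝓜, Finset.mem_filter]
      refine ⟨Finset.mem_univ _, ?_, ?_⟩
      · intro a b h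
        rcases h with h | ⟨h1, h2⟩ | ⟨h1, h2⟩
        · exact hHG h
        · rw [h1, h2]; exact hxy
        · rw [h1, h2]; exact hxy.symm
      · intro a b c h h'
        rcases h with h | ⟨h1, h2⟩ | ⟨h1, h2⟩
        · rcases h' with h' | ⟨h1', h2'⟩ | ⟨h1', h2'⟩
          · exact hHm a b c h h'
          · rw [h1'] at h; exact absurd h (hx' b)
          · rw [h1'] at h; exact absurd h (hy' b)
        · rcases h' with h' | ⟨h1', h2'⟩ | ⟨h1', h2'⟩
          · rw [h1] at h'; exact absurd h' (hx' c)
          · rw [h2, h2']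
          · exact absurd (h1.symm.trans h1') hxy'
        · rcases h' with h' | ⟨h1', h2'⟩ | ⟨h1', h2'⟩
          · rw [h1] at h'; exact absurd h' (hy' c)
          · exact absurd (h1'.symm.trans h1) hxy'
          · rw [h2, h2']
    have hlt : H.edgeSet.ncard < H'.edgeSet.ncard := by
      apply Set.ncard_lt_ncard _ (Set.toFinite _)
      rw [edgeSet_ssubset_edgeSet]
      refine lt_of_le_of_ne (fun a b h => Or.inl h) ?_
      intro heq
      have h1 : H'.Adj x y := Or.inr (Or.inl ⟨rfl, rfl⟩)
      rw [← heq] at h1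
      exact hx' y h1
    exact absurd hlt (not_lt.mpr (hmax H' hmem))

/-- few non-isolated vertices -/
theorem support_bound (G : SimpleGraph V) [DecidableRel G.Adj] {t : ℕ} (ht : 2 ≤ t) (k : ℕ)
    (hk : ∀ r : ℝ, Ach G t Finset.univ r → r < k) :
    #(Finset.univ.filter fun x => ∃ y, G.Adj x y) ≤ 3 * k := by
  classical
  obtain ⟨W, hW, hcov⟩ := cover_set G ht k hk
  set U : Finset V := (Finset.univ.filter fun x => ∃ y, G.Adj x y) \ W with hU
  have hg : ∀ x, ∃ y, x ∈ U → G.Adj x y := by
    intro x
    by_cases hx : x ∈ U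
    · obtain ⟨y, hy⟩ := (Finset.mem_filter.mp (Finset.mem_sdiff.mp hx).1).2
      exact ⟨y, fun _ => hy⟩
    · exact ⟨x, fun h => absurd h hx⟩
  choose g hg using hg
  have hgW : ∀ x ∈ U, g x ∈ W := by
    intro x hx
    rcases hcov x (g x) (hg x hx) with h | h
    · exact absurd h (Finset.mem_sdiff.mp hx).2
    · exact h
  have hgU : ∀ x ∈ U, g x ∉ U := fun x hx h => (Finset.mem_sdiff.mp h).2 (hgW x hx)
  set H : SimpleGraph V :=
    { Adj := fun a b => (a ∈ U ∧ b = g a) ∨ (b ∈ U ∧ a = g b)
      symm := ⟨fun a b h => by tauto⟩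
      loopless := ⟨fun a h => by
        rcases h with h | h
        · exact hgU a h.1 (h.2 ▸ h.1)
        · exact hgU a h.1 (h.2 ▸ h.1)⟩ } with hH
  have hach : Ach G t Finset.univ (#U : ℝ) := by
    refine ⟨H, ?_, fun x y _ => ⟨Finset.mem_univ _, Finset.mem_univ _⟩, ?_, ?_⟩
    · intro a b h
      rcases h with ⟨h1, h2⟩ | ⟨h1, h2⟩
      · rw [h2]; exact hg a h1
      · rw [h2]; exact (hg b h1).symm
    · apply free_of_no_map
      intro f hf hall
      have h0 := hall 0 (by omega)
      have h1 := hall 1 (by omega)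
      have h2 := hall 2 (by omega)
      -- an interior vertex is not in `U`
      have key : ∀ a b c, H.Adj a b → H.Adj b c → a ≠ c → b ∉ U := by
        intro a b c hab hbc hac hb
        have e1 : a = g b := by
          rcases hab with h | h
          · exact absurd (h.2 ▸ hb) (hgU a h.1)
          · exact h.2
        have e2 : c = g b := by
          rcases hbc with h | h
          · exact h.2
          · exact absurd (h.2 ▸ hb) (hgU c h.1)
        exact hac (e1.trans e2.symm)
      have n1 := key _ _ _ h0 h1 (fun h => by have := hf 0 2 (by omega) (by omega) h; omega)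
      have n2 := key _ _ _ h1 h2 (fun h => by have := hf 1 3 (by omega) (by omega) h; omega)
      rcases h1 with h | h
      · exact n1 h.1
      · exact n2 h.1
    · have h1 : #U ≤ H.edgeSet.ncard := by
        have h2 : Set.InjOn (fun x => s(x, g x)) (↑U : Set V) := by
          intro x hx y hy hxy
          simp only [Sym2.eq_iff] at hxy
          rcases hxy with hxy | hxy
          · exact hxy.1
          · exfalso
            exact hgU y hy (hxy.1 ▸ hx)
        rw [← Set.ncard_coe_finset U, ← h2.ncard_image]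
        apply Set.ncard_le_ncard _ (Set.toFinite _)
        rintro e ⟨x, hx, rfl⟩
        show s(x, g x) ∈ H.edgeSet
        rw [mem_edgeSet]
        exact Or.inl ⟨hx, rfl⟩
      exact_mod_cast h1
  have h1 : #U < k := by exact_mod_cast hk _ hach
  have h2 : #(Finset.univ.filter fun x => ∃ y, G.Adj x y) ≤ #U + #W := by
    rw [hU]
    have := Finset.card_le_card_sdiff_add_card (s := Finset.univ.filter fun x => ∃ y, G.Adj x y)
      (t := W)
    exact this
  omega

/-- transfer from an induced subgraph -/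
theorem Ach.of_induce (G : SimpleGraph V) (S : Finset V) {t : ℕ} (ht : 1 ≤ t) {k : ℝ}
    (h : Ach (G.induce (S : Set V)) t Finset.univ k) : Ach G t S k := by
  classical
  obtain ⟨H, h1, _, h3, h4⟩ := h
  set H' : SimpleGraph V := H.map (Function.Embedding.subtype _) with hH'
  have hadj : ∀ a b, H'.Adj a b ↔ ∃ (ha : a ∈ S) (hb : b ∈ S), H.Adj ⟨a, ha⟩ ⟨b, hb⟩ := by
    intro a b
    rw [hH', map_adj]
    constructor
    · rintro ⟨x, y, hxy, rfl, rfl⟩
      exact ⟨x.2, y.2, hxy⟩
    · rintro ⟨ha, hb, hab⟩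
      exact ⟨⟨a, ha⟩, ⟨b, hb⟩, hab, rfl, rfl⟩
  refine ⟨H', ?_, ?_, ?_, ?_⟩
  · intro a b hab
    obtain ⟨ha, hb, hab⟩ := (hadj a b).mp hab
    exact h1 hab
  · intro a b hab
    obtain ⟨ha, hb, _⟩ := (hadj a b).mp hab
    exact ⟨ha, hb⟩
  · apply free_of_no_map
    intro f hf hall
    have hmem : ∀ i ≤ 2 * t, f i ∈ S := by
      intro i hi
      rcases Nat.lt_or_ge i (2 * t) with h | h
      · exact ((hadj _ _).mp (hall i h)).1
      · have : i = (2 * t - 1) + 1 := by omega
        rw [this]
        exact ((hadj _ _).mp (hall (2 * t - 1) (by omega))).2.1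
    refine free_of_map h3 (fun i => if hi : i ≤ 2 * t then ⟨f i, hmem i hi⟩ else
      ⟨f 0, hmem 0 (by omega)⟩) ?_ ?_
    · intro i j hi hj hij
      simp only [dif_pos hi, dif_pos hj] at hij
      exact hf i j hi hj (Subtype.ext_iff.mp hij)
    · intro i hi
      simp only [dif_pos (show i ≤ 2 * t by omega), dif_pos (show i + 1 ≤ 2 * t by omega)]
      exact ((hadj _ _).mp (hall i hi)).2.2
  · have : H'.edgeSet.ncard = H.edgeSet.ncard := by
      rw [hH', edgeSet_map]
      rw [Set.ncard_image_of_injective]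
      exact (Function.Embedding.sym2Map _).injective
    rw [this]
    exact h4

end Pool.Agent.H.MP_69c6fe_co
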