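import Mathlib
import Pool.Agent.H.MP_69c6fe_co.Regular
import Pool.Agent.H.MP_69c6fe_co.Support

/-!
# The upper bound for the number of edges
-/

namespace Pool.Agent.H.MP_69c6fe_co

open Finset SimpleGraph

theorem edges_induce {V : Type*} [Fintype V] [DecidableEq V] (G : SimpleGraph V) (S : Finset V)
    (hS : ∀ x y, G.Adj x y → x ∈ S) :
    (G.induce (S : Set V)).edgeSet.ncard = G.edgeSet.ncard := by
  have h : (G.induce (S : Set V)).map (Function.Embedding.subtype _) = G := by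
    ext a b
    rw [map_adj]
    constructor
    · rintro ⟨x, y, hxy, rfl, rfl⟩
      exact hxy
    · intro hab
      exact ⟨⟨a, hS a b hab⟩, ⟨b, hS b a hab.symm⟩, hab, rfl, rfl⟩
  conv_rhs => rw [← h]
  rw [edgeSet_map, Set.ncard_image_of_injective]
  exact (Function.Embedding.sym2Map _).injective

open Classical in
theorem upper_main {t : ℕ} (ht : 2 ≤ t) {ε : ℝ} (hε : 0 < ε) : ∃ k₀ : ℕ, ∀ k ≥ k₀,
    ∀ (V : Type) [Fintype V] (G : SimpleGraph V),
      (∀ r : ℝ, Ach G t Finset.univ r → r < k) →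
      (G.edgeSet.ncard : ℝ) ≤ (1 / (2 * t * (t - 1)) + ε) * k ^ 2 := by
  have ht2 : (2 : ℝ) ≤ t := by exact_mod_cast ht
  have htt : (4 : ℝ) ≤ 2 * t * (t - 1) := by nlinarith
  set κ : ℝ := min 1 (4 * ε / 15) with hκ
  have hκ0 : 0 < κ := lt_min one_pos (by positivity)
  have hκ1 : κ ≤ 1 := min_le_left _ _
  have hκε : 15 * κ ≤ 4 * ε := by
    have := min_le_right 1 (4 * ε / 15)
    rw [← hκ] at this
    linarith
  obtain ⟨n₀, hn₀⟩ := regular_main ht hκ0
  refine ⟨⌈(n₀ : ℝ) ^ 2 / ε⌉₊ + 1, ?_⟩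
  intro k hk V _ G hG
  have hk1 : (1 : ℝ) ≤ k := by
    have : 1 ≤ k := by omega
    exact_mod_cast this
  have hk2 : (n₀ : ℝ) ^ 2 ≤ ε * k ^ 2 := by
    have h1 : (n₀ : ℝ) ^ 2 / ε ≤ k := by
      refine (Nat.le_ceil _).trans ?_
      exact_mod_cast (by omega : ⌈(n₀ : ℝ) ^ 2 / ε⌉₊ ≤ k)
    rw [div_le_iff₀ hε] at h1
    have h2 : (k : ℝ) ≤ k ^ 2 := by nlinarith
    have h3 := mul_le_mul_of_nonneg_left h2 hε.le
    linarith
  set S : Finset V := Finset.univ.filter (fun x => ∃ y, G.Adj x y) with hS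
  have hSc : #S ≤ 3 * k := support_bound G ht k hG
  have hSG : ∀ x y, G.Adj x y → x ∈ S := fun x y h =>
    Finset.mem_filter.mpr ⟨Finset.mem_univ _, y, h⟩
  have hpos : (0 : ℝ) ≤ 1 / (2 * t * (t - 1)) := by
    apply div_nonneg zero_le_one
    linarith
  have hcardS : Fintype.card (S : Set V) = #S := by simp
  have hedge := edges_induce G S hSG
  rcases Nat.lt_or_ge #S n₀ with hlt | hge
  · have h1 : (G.induce (S : Set V)).edgeSet.ncard ≤ (#S) ^ 2 := by
      rw [← coe_edgeFinset, Set.ncard_coe_finset]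
      refine (card_edgeFinset_le_card_choose_two).trans ?_
      rw [hcardS]
      calc (#S).choose 2 ≤ (#S) ^ 2 := Nat.choose_le_pow _ _
        _ = _ := rfl
    have h2 : (G.edgeSet.ncard : ℝ) ≤ (n₀ : ℝ) ^ 2 := by
      rw [← hedge]
      have h3 : (#S) ^ 2 ≤ n₀ ^ 2 := Nat.pow_le_pow_left hlt.le 2
      exact_mod_cast h1.trans h3
    have h4 : 0 ≤ 1 / (2 * t * (t - 1)) * (k : ℝ) ^ 2 := by positivity
    nlinarith
  · have h1 := hn₀ (S : Set V) (G.induce (S : Set V)) (by rw [hcardS]; exact hge)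
    have h2 := hG _ ((Ach.of_induce G S (by omega) h1).mono (Finset.subset_univ _) le_rfl)
    rw [hcardS] at h2
    have h3 : (#(G.induce (S : Set V)).edgeFinset : ℝ) = G.edgeSet.ncard := by
      rw [← hedge, ← coe_edgeFinset, Set.ncard_coe_finset]
    rw [h3] at h2
    have h4 : (#S : ℝ) ≤ 3 * k := by exact_mod_cast hSc
    have h5 : Real.sqrt (2 * t * (t - 1) * G.edgeSet.ncard) ≤ (1 + 3 * κ) * k := by
      have := mul_le_mul_of_nonneg_left h4 hκ0.le
      linarith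
    have h6 : 2 * t * (t - 1) * (G.edgeSet.ncard : ℝ) ≤ ((1 + 3 * κ) * k) ^ 2 := by
      have h0 : (0 : ℝ) ≤ 2 * t * (t - 1) * G.edgeSet.ncard := by positivity
      have h7 := pow_le_pow_left₀ (Real.sqrt_nonneg _) h5 2
      rwa [Real.sq_sqrt h0] at h7
    have h8 : (1 + 3 * κ) ^ 2 ≤ 1 + 2 * t * (t - 1) * ε := by
      have h9 : (1 + 3 * κ) ^ 2 ≤ 1 + 15 * κ := by nlinarith
      have h10 : 4 * ε ≤ 2 * t * (t - 1) * ε := mul_le_mul_of_nonneg_right htt hε.le
      linarith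
    have h11 : 2 * t * (t - 1) * (G.edgeSet.ncard : ℝ) ≤ (1 + 2 * t * (t - 1) * ε) * k ^ 2 := by
      refine h6.trans ?_
      rw [mul_pow]
      exact mul_le_mul_of_nonneg_right h8 (by positivity)
    have h12 : (1 / (2 * t * (t - 1)) + ε) * (k : ℝ) ^ 2 =
        ((1 + 2 * t * (t - 1) * ε) * k ^ 2) / (2 * t * (t - 1)) := by
      have h13 : ((t : ℝ) - 1) ≠ 0 := by linarith
      have h14 : (t : ℝ) ≠ 0 := by linarith
      field_simp
    rw [h12, le_div_iff₀ (by linarith)]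
    linarith

end Pool.Agent.H.MP_69c6fe_co
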